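import Pool.Agent.X8.ET.Win
import Pool.Agent.X8.ET.Mean

/-!
# Fixed windows
-/

set_option autoImplicit false

open Finset Filter Topology MeasureTheory

namespace Pool.Agent.X8.ET

open Pool.Agent.TH314.ET

/-- the generating function of the window sums -/
theorem Sw_tsum (A : Set ℕ) {W : Finset ℕ} {w : ℕ → ℝ} (hW : ∀ k ∉ W, w k = 0) {R : ℝ}
    (h0 : 0 ≤ R) (h1 : R < 1) :
    ∑' n, Sw A w n * R ^ n = (∑ k ∈ W, w k * R ^ k) * gf A R ^ 2 := by
  have h2 : Summable fun k => ‖w k * R ^ k‖ := (w_summable hW R).norm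
  have h3 : Summable fun n => ‖(rep A n : ℝ) * R ^ n‖ := (rw_summable_real A h0 h1).norm
  have h4 := tsum_mul_tsum_eq_tsum_sum_antidiagonal_of_summable_norm h2 h3
  have h5 : ∑' k, w k * R ^ k = ∑ k ∈ W, w k * R ^ k :=
    tsum_eq_sum fun k hk => by rw [hW k hk, zero_mul]
  rw [gf_sq A h0 h1, ← h5, h4]
  exact tsum_congr fun n => (Sw_conv A w R n).symm

/-- Bernoulli's inequality for the energy of the weights -/
theorem B_ge {W : Finset ℕ} {w : ℕ → ℝ} {M : ℕ} (hM : ∀ k ∈ W, k ≤ M) {ρ : ℝ}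
    (h0 : 0 ≤ ρ) (h1 : ρ < 1) :
    (∑ k ∈ W, w k ^ 2) * (1 - 2 * M * (1 - ρ)) ≤ ∑ k ∈ W, w k ^ 2 * ρ ^ (2 * k) := by
  rw [Finset.sum_mul]
  refine Finset.sum_le_sum fun k hk => ?_
  refine mul_le_mul_of_nonneg_left ?_ (sq_nonneg _)
  have h2 := one_add_mul_le_pow (a := ρ - 1) (by linarith) (2 * M)
  have h3 : (1 + (ρ - 1)) ^ (2 * M) = ρ ^ (2 * M) := by congr 1; ring
  rw [h3] at h2
  have h4 : ρ ^ (2 * M) ≤ ρ ^ (2 * k) :=
    pow_le_pow_of_le_one h0 h1.le (by have := hM k hk; omega)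
  push_cast at h2
  linarith

theorem B_le {W : Finset ℕ} {w : ℕ → ℝ} {ρ : ℝ} (h0 : 0 ≤ ρ) (h1 : ρ < 1) :
    ∑ k ∈ W, w k ^ 2 * ρ ^ (2 * k) ≤ ∑ k ∈ W, w k ^ 2 :=
  Finset.sum_le_sum fun _ _ => mul_le_of_le_one_right (sq_nonneg _) (pow_le_one₀ h0 h1.le)

theorem gf_ge_count (A : Set ℕ) {x : ℕ} (hx : 1 ≤ x) :
    ((A ∩ Set.Iic x).ncard : ℝ) / 2 ≤ gf A ((1 - 1 / (4 * (x : ℝ))) ^ 2) := by
  classical
  have hx0 : (0 : ℝ) < x := by exact_mod_cast hx
  have hx1 : (1 : ℝ) ≤ x := by exact_mod_cast hx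
  set ρ : ℝ := 1 - 1 / (4 * (x : ℝ)) with hρ
  have hq : 1 / (4 * (x : ℝ)) ≤ 1 / 4 := by
    apply one_div_le_one_div_of_le (by norm_num); linarith
  have hq0 : 0 < 1 / (4 * (x : ℝ)) := by positivity
  have h0 : 0 ≤ ρ := by rw [hρ]; linarith
  have h1 : ρ < 1 := by rw [hρ]; linarith
  have hR0 : 0 ≤ ρ ^ 2 := by positivity
  have hR1 : ρ ^ 2 < 1 := by nlinarith
  have hfin : (A ∩ Set.Iic x).Finite := (Set.finite_Iic x).subset Set.inter_subset_right
  rw [Set.ncard_eq_toFinset_card _ hfin]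
  have hgs : Summable fun n : ℕ => (if n ∈ A then (ρ ^ 2) ^ n else 0 : ℝ) := by
    refine Summable.of_nonneg_of_le (fun n => by split_ifs <;> positivity) (fun n => ?_)
      (summable_geometric_of_lt_one hR0 hR1)
    split_ifs
    · exact le_rfl
    · positivity
  have h2 : ∑ n ∈ hfin.toFinset, (if n ∈ A then (ρ ^ 2) ^ n else 0 : ℝ) ≤ gf A (ρ ^ 2) := by
    unfold gf
    exact hgs.sum_le_tsum _ fun n _ => by split_ifs <;> positivity
  refine le_trans ?_ h2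
  have h3 : ∀ n ∈ hfin.toFinset, (1 / 2 : ℝ) ≤ (if n ∈ A then (ρ ^ 2) ^ n else 0 : ℝ) := by
    intro n hn
    rw [Set.Finite.mem_toFinset] at hn
    rw [if_pos hn.1, ← pow_mul]
    have h4 : (n : ℝ) ≤ x := by exact_mod_cast hn.2
    have h5 := one_add_mul_le_pow (a := ρ - 1) (by linarith) (2 * n)
    have h6 : (1 + (ρ - 1)) ^ (2 * n) = ρ ^ (2 * n) := by congr 1; ring
    rw [h6] at h5
    push_cast at h5
    have h7 : (2 * (n : ℝ)) * (ρ - 1) = -((n : ℝ) / x) / 2 := by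
      rw [hρ]; field_simp; ring
    have h8 : (n : ℝ) / x ≤ 1 := (div_le_one hx0).2 h4
    rw [h7] at h5
    linarith
  have h4 := Finset.card_nsmul_le_sum _ _ _ h3
  rw [nsmul_eq_mul] at h4
  linarith

/-- **Fixed windows.** -/
theorem fixed (A : Set ℕ)
    (hA : ∀ C : ℝ, ∃ x : ℕ, 2 ≤ x ∧ C * Real.log x ≤ ((A ∩ Set.Iic x).ncard : ℝ))
    (W : Finset ℕ) (w : ℕ → ℝ) (hw : ∀ k, 0 ≤ w k) (hW : ∀ k ∉ W, w k = 0) (l L : ℝ) (hl : 0 ≤ l)
    (n₁ : ℕ) (h : ∀ n, n₁ ≤ n → l ≤ Sw A w n ∧ Sw A w n ≤ L) :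
    ∑ k ∈ W, w k ^ 2 ≤ (√L - √l) ^ 2 * ∑ k ∈ W, w k := by
  have hL : 0 ≤ L := hl.trans ((h n₁ le_rfl).1.trans (h n₁ le_rfl).2)
  obtain ⟨κ, hκ⟩ : ∃ κ : ℝ, κ = (√L - √l) ^ 2 := ⟨_, rfl⟩
  obtain ⟨t, ht⟩ : ∃ t : ℝ, t = √L * √l := ⟨_, rfl⟩
  obtain ⟨s, hs⟩ : ∃ s : ℝ, s = ∑ k ∈ W, w k := ⟨_, rfl⟩
  obtain ⟨B, hB⟩ : ∃ B : ℝ, B = ∑ k ∈ W, w k ^ 2 := ⟨_, rfl⟩
  have ht0 : 0 ≤ t := ht ▸ by positivity
  have hκ0 : 0 ≤ κ := hκ ▸ sq_nonneg _
  have hs0 : 0 ≤ s := hs ▸ Finset.sum_nonneg fun k _ => hw k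
  have hB0 : 0 ≤ B := hB ▸ Finset.sum_nonneg fun k _ => sq_nonneg _
  rw [← hκ, ← hs, ← hB]
  obtain ⟨M, hM⟩ : ∃ M : ℕ, ∀ k ∈ W, k ≤ M := ⟨W.sup id, fun k hk => Finset.le_sup (f := id) hk⟩
  obtain ⟨E, hE⟩ : ∃ E : ℝ, E = ∑ n ∈ range n₁, (Sw A w n - t) ^ 2 := ⟨_, rfl⟩
  have hE0 : 0 ≤ E := hE ▸ Finset.sum_nonneg fun n _ => sq_nonneg _
  -- the upper bound of the energy
  have hup : ∀ ρ : ℝ, 0 ≤ ρ → ρ < 1 → ∑' n, (Sw A w n - t) ^ 2 * ρ ^ (2 * n) ≤
      κ * (s * gf A (ρ ^ 2) ^ 2) + E := by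
    intro ρ h0 h1
    have hR0 : 0 ≤ ρ ^ 2 := by positivity
    have hR1 : ρ ^ 2 < 1 := by nlinarith
    have hS := Sw_summable A hw hW hR0 hR1
    obtain ⟨D, hD⟩ : ∃ D : ℕ → ℝ, D = fun n => if n < n₁ then (Sw A w n - t) ^ 2 else 0 := ⟨_, rfl⟩
    have hDs : Summable D := summable_of_ne_finset_zero (s := range n₁) fun n hn => by
      rw [hD]
      show (if n < n₁ then (Sw A w n - t) ^ 2 else 0) = 0
      rw [if_neg (by simpa using hn)]
    have hDt : ∑' n, D n = E := by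
      rw [tsum_eq_sum (s := range n₁) fun n hn => by
        rw [hD]
        show (if n < n₁ then (Sw A w n - t) ^ 2 else 0) = 0
        rw [if_neg (by simpa using hn)], hE]
      refine Finset.sum_congr rfl fun n hn => ?_
      rw [hD]
      show (if n < n₁ then (Sw A w n - t) ^ 2 else 0) = _
      rw [if_pos (by simpa using hn)]
    have hpt : ∀ n, (Sw A w n - t) ^ 2 * ρ ^ (2 * n) ≤ κ * (Sw A w n * (ρ ^ 2) ^ n) + D n := by
      intro n
      have hp0 : 0 ≤ ρ ^ (2 * n) := by positivity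
      have hp1 : ρ ^ (2 * n) ≤ 1 := pow_le_one₀ h0 h1.le
      have hS0 := Sw_nonneg A hw n
      rw [hD]
      show _ ≤ _ + (if n < n₁ then (Sw A w n - t) ^ 2 else 0)
      rw [← pow_mul]
      by_cases hn : n < n₁
      · rw [if_pos hn]
        have h5 : (Sw A w n - t) ^ 2 * ρ ^ (2 * n) ≤ (Sw A w n - t) ^ 2 :=
          mul_le_of_le_one_right (sq_nonneg _) hp1
        have h6 : 0 ≤ κ * (Sw A w n * ρ ^ (2 * n)) := by positivity
        linarith
      · rw [if_neg hn, add_zero]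
        obtain ⟨h5, h6⟩ := h n (by omega)
        have h7 : (Sw A w n - t) ^ 2 ≤ κ * Sw A w n := by
          have h8 := mul_nonneg (sub_nonneg.2 h5) (sub_nonneg.2 h6)
          have h9 := Real.sq_sqrt hL
          have h10 := Real.sq_sqrt hl
          have h11 : t ^ 2 = L * l := by rw [ht, mul_pow, h9, h10]
          have h12 : κ = L + l - 2 * t := by
            rw [hκ, ht]
            nlinarith
          rw [h12]
          nlinarith
        calc (Sw A w n - t) ^ 2 * ρ ^ (2 * n) ≤ (κ * Sw A w n) * ρ ^ (2 * n) :=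
              mul_le_mul_of_nonneg_right h7 hp0
          _ = _ := by ring
    have hsum := (hS.mul_left κ).add hDs
    have h5 : ∑' n, (Sw A w n - t) ^ 2 * ρ ^ (2 * n) ≤
        ∑' n, (κ * (Sw A w n * (ρ ^ 2) ^ n) + D n) := by
      refine Summable.tsum_le_tsum hpt ?_ hsum
      exact Summable.of_nonneg_of_le (fun n => by positivity) hpt hsum
    rw [(hS.mul_left κ).tsum_add hDs, tsum_mul_left, Sw_tsum A hW hR0 hR1, hDt] at h5
    refine h5.trans ?_
    have h6 : ∑ k ∈ W, w k * (ρ ^ 2) ^ k ≤ s := by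
      rw [hs]
      exact Finset.sum_le_sum fun k _ => mul_le_of_le_one_right (hw k) (pow_le_one₀ hR0 hR1.le)
    have h7 := mul_le_mul_of_nonneg_left
      (mul_le_mul_of_nonneg_right h6 (sq_nonneg (gf A (ρ ^ 2)))) hκ0
    linarith
  -- the inequality for one value of the parameter
  have hone : ∀ C : ℕ, 8 ≤ C → B * (1 - M / C) - 32 * t * s / C ≤
      √(B * (κ * s + 16 * E / (C : ℝ) ^ 2)) := by
    intro C hC
    have hC0 : (8 : ℝ) ≤ C := by exact_mod_cast hC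
    have hCpos : (0 : ℝ) < C := by linarith
    obtain ⟨x, hx2, hx⟩ := hA C
    have hx2' : (2 : ℝ) ≤ x := by exact_mod_cast hx2
    have hx0 : (0 : ℝ) < x := by linarith
    have hcount : ((A ∩ Set.Iic x).ncard : ℝ) ≤ x + 1 := by
      have h2 : (A ∩ Set.Iic x).ncard ≤ (Set.Iic x).ncard :=
        Set.ncard_le_ncard Set.inter_subset_right (Set.finite_Iic x)
      have h3 : (Set.Iic x).ncard = x + 1 := by
        rw [← Finset.coe_Iic, Set.ncard_coe_finset, Nat.card_Iic]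
      rw [h3] at h2
      exact_mod_cast h2
    have hlog2 : (0.69 : ℝ) ≤ Real.log 2 := by
      have := Real.log_two_gt_d9
      linarith
    have hlogx : Real.log 2 ≤ Real.log x := Real.log_le_log (by norm_num) hx2'
    have hlog0 : 0 < Real.log x := by linarith
    have hxC : (C : ℝ) ≤ 2 * x := by
      have h2 : (C : ℝ) * 0.69 ≤ C * Real.log x :=
        mul_le_mul_of_nonneg_left (by linarith) hCpos.le
      linarith
    obtain ⟨ρ, hρ⟩ : ∃ ρ : ℝ, ρ = 1 - 1 / (4 * (x : ℝ)) := ⟨_, rfl⟩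
    have hq : 1 / (4 * (x : ℝ)) ≤ 1 / 4 := by
      apply one_div_le_one_div_of_le (by norm_num); linarith
    have hq0 : 0 < 1 / (4 * (x : ℝ)) := by positivity
    have h0 : 1 / 2 ≤ ρ := by rw [hρ]; linarith
    have h1 : ρ < 1 := by rw [hρ]; linarith
    have hρ0 : 0 ≤ ρ := by linarith
    have hG := gf_ge_count A (show 1 ≤ x by omega)
    rw [← hρ] at hG
    obtain ⟨G, hGd⟩ : ∃ G : ℝ, G = gf A (ρ ^ 2) := ⟨_, rfl⟩
    rw [← hGd] at hG
    have hGC : (C : ℝ) / 4 ≤ G := by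
      have h2 : (C : ℝ) * 0.69 ≤ C * Real.log x :=
        mul_le_mul_of_nonneg_left (by linarith) hCpos.le
      linarith
    have hG0 : 0 < G := by linarith
    have hmain := main_ineq A W w hw hW t h0 h1
    rw [← hGd, ← hs, abs_of_nonneg ht0] at hmain
    have hBl := B_ge (w := w) hM hρ0 h1
    have hBu := B_le (W := W) (w := w) hρ0 h1
    rw [← hB] at hBl hBu
    obtain ⟨Br, hBr⟩ : ∃ Br : ℝ, Br = ∑ k ∈ W, w k ^ 2 * ρ ^ (2 * k) := ⟨_, rfl⟩
    rw [← hBr] at hmain hBl hBu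
    have hBr0 : 0 ≤ Br := hBr ▸ Finset.sum_nonneg fun k _ => by positivity
    have hup' := hup ρ hρ0 h1
    rw [← hGd] at hup'
    -- the logarithm
    have hlogb : 4 * Real.log (2 / (1 - ρ)) ≤ 32 * G / C := by
      have h2 : 2 / (1 - ρ) = 8 * x := by rw [hρ]; field_simp; ring
      rw [h2]
      have h3 : Real.log (8 * x) ≤ 4 * Real.log x := by
        rw [Real.log_mul (by norm_num) hx0.ne', show (8 : ℝ) = 2 ^ 3 by norm_num, Real.log_pow]
        push_cast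
        linarith
      rw [le_div_iff₀ hCpos]
      have h4 := mul_le_mul_of_nonneg_right h3 hCpos.le
      linarith
    have hM1 : B * (1 - M / C) ≤ Br := by
      refine le_trans ?_ hBl
      refine mul_le_mul_of_nonneg_left ?_ hB0
      have h2 : 2 * (M : ℝ) * (1 - ρ) = M / (2 * x) := by rw [hρ]; field_simp; ring
      rw [h2]
      have h3 : (M : ℝ) / (2 * x) ≤ M / C :=
        div_le_div_of_nonneg_left (Nat.cast_nonneg _) hCpos hxC
      linarith
    have hfin : G * (B * (1 - M / C) - 32 * t * s / C) ≤ √(Br * (κ * (s * G ^ 2) + E)) := by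
      have h2 : √(Br * ∑' n, (Sw A w n - t) ^ 2 * ρ ^ (2 * n)) ≤ √(Br * (κ * (s * G ^ 2) + E)) :=
        Real.sqrt_le_sqrt (mul_le_mul_of_nonneg_left hup' hBr0)
      refine le_trans ?_ (hmain.trans h2)
      have h3 : t * s * (4 * Real.log (2 / (1 - ρ))) ≤ t * s * (32 * G / C) :=
        mul_le_mul_of_nonneg_left hlogb (by positivity)
      have h4 : G * (B * (1 - M / C)) ≤ Br * G := by
        rw [mul_comm Br G]; exact mul_le_mul_of_nonneg_left hM1 hG0.le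
      have h5 : t * s * (32 * G / C) = G * (32 * t * s / C) := by ring
      linarith
    have h6 : √(Br * (κ * (s * G ^ 2) + E)) ≤ G * √(B * (κ * s + 16 * E / (C : ℝ) ^ 2)) := by
      rw [show G * √(B * (κ * s + 16 * E / (C : ℝ) ^ 2)) =
        √(G ^ 2 * (B * (κ * s + 16 * E / (C : ℝ) ^ 2))) by
          rw [Real.sqrt_mul (sq_nonneg G), Real.sqrt_sq hG0.le]]
      refine Real.sqrt_le_sqrt ?_
      have h7 : E ≤ G ^ 2 * (16 * E / (C : ℝ) ^ 2) := by
        have h8 : 1 ≤ 16 * G ^ 2 / (C : ℝ) ^ 2 := by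
          rw [le_div_iff₀ (by positivity)]
          nlinarith
        calc E = E * 1 := (mul_one E).symm
          _ ≤ E * (16 * G ^ 2 / (C : ℝ) ^ 2) := mul_le_mul_of_nonneg_left h8 hE0
          _ = _ := by ring
      have h9 : κ * (s * G ^ 2) + E ≤ G ^ 2 * (κ * s + 16 * E / (C : ℝ) ^ 2) := by linarith
      have h10 : 0 ≤ κ * (s * G ^ 2) + E := by positivity
      calc Br * (κ * (s * G ^ 2) + E) ≤ B * (G ^ 2 * (κ * s + 16 * E / (C : ℝ) ^ 2)) :=
            mul_le_mul hBu h9 h10 hB0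
        _ = _ := by ring
    exact le_of_mul_le_mul_left (hfin.trans h6) hG0
  -- the limit
  have hl1 : Tendsto (fun C : ℕ => B * (1 - M / C) - 32 * t * s / C) atTop
      (𝓝 (B * (1 - 0) - 0)) := by
    apply Tendsto.sub
    · apply Tendsto.const_mul
      apply Tendsto.const_sub
      exact tendsto_const_div_atTop_nhds_zero_nat _
    · exact tendsto_const_div_atTop_nhds_zero_nat _
  have hl2 : Tendsto (fun C : ℕ => √(B * (κ * s + 16 * E / (C : ℝ) ^ 2))) atTop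
      (𝓝 (√(B * (κ * s + 0)))) := by
    apply Tendsto.sqrt
    apply Tendsto.const_mul
    apply Tendsto.const_add
    have h2 : Tendsto (fun C : ℕ => (16 * E) * ((C : ℝ) ^ 2)⁻¹) atTop (𝓝 ((16 * E) * 0)) := by
      apply Tendsto.const_mul
      exact tendsto_inv_atTop_zero.comp
        ((tendsto_pow_atTop (by norm_num)).comp tendsto_natCast_atTop_atTop)
    rw [mul_zero] at h2
    exact h2
  have h3 := le_of_tendsto_of_tendsto hl1 hl2 (eventually_atTop.2 ⟨8, hone⟩)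
  rw [sub_zero, sub_zero, mul_one, add_zero] at h3
  have h4 : B ^ 2 ≤ B * (κ * s) := by
    have h5 := pow_le_pow_left₀ hB0 h3 2
    rwa [Real.sq_sqrt (by positivity)] at h5
  rcases hB0.eq_or_lt with h5 | h5
  · rw [← h5]; positivity
  · nlinarith

end Pool.Agent.X8.ET
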