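import Pool.Agent.W165.RS.Parseval
import Pool.Agent.TH314.ET.Lim

/-!
# Fourier series with nonnegative coefficients: the weighted energy inequality
-/

set_option autoImplicit false

open Finset Filter Topology MeasureTheory

namespace Pool.Agent.X8.ET

/-- `e(n x)` -/
noncomputable abbrev en (n : ℕ) (x : ℝ) : ℂ := Pool.Agent.W165.RS.ee (n : ℤ) x

/-- the Fourier series with coefficients `c` -/
noncomputable def Fs (c : ℕ → ℂ) (x : ℝ) : ℂ := ∑' n, c n * en n x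

/-- Cauchy product -/
noncomputable def cv (c d : ℕ → ℂ) (n : ℕ) : ℂ := ∑ p ∈ antidiagonal n, c p.1 * d p.2

theorem en_norm (n : ℕ) (x : ℝ) : ‖en n x‖ = 1 := Pool.Agent.W165.RS.norm_ee _ _

theorem en_mul (m n : ℕ) (x : ℝ) : en m x * en n x = en (m + n) x := by
  unfold en
  rw [Pool.Agent.W165.RS.ee_mul]
  push_cast
  rfl

theorem Fs_summable {c : ℕ → ℂ} (hc : Summable fun n => ‖c n‖) (x : ℝ) :
    Summable fun n => ‖c n * en n x‖ := by
  simpa [norm_mul, en_norm] using hc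

theorem Fs_cont {c : ℕ → ℂ} (hc : Summable fun n => ‖c n‖) : Continuous (Fs c) := by
  refine continuous_tsum (fun n => continuous_const.mul (Pool.Agent.W165.RS.continuous_ee n)) hc ?_
  intro n x
  rw [norm_mul, Pool.Agent.W165.RS.norm_ee, mul_one]

theorem Fs_norm_le {c : ℕ → ℂ} (hc : Summable fun n => ‖c n‖) (x : ℝ) :
    ‖Fs c x‖ ≤ ∑' n, ‖c n‖ := by
  refine (norm_tsum_le_tsum_norm (Fs_summable hc x)).trans (le_of_eq ?_)
  exact tsum_congr fun n => by rw [norm_mul, en_norm, mul_one]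

theorem cv_summable {c d : ℕ → ℂ} (hc : Summable fun n => ‖c n‖) (hd : Summable fun n => ‖d n‖) :
    Summable fun n => ‖cv c d n‖ :=
  summable_norm_sum_mul_antidiagonal_of_summable_norm hc hd

theorem Fs_mul {c d : ℕ → ℂ} (hc : Summable fun n => ‖c n‖) (hd : Summable fun n => ‖d n‖)
    (x : ℝ) : Fs c x * Fs d x = Fs (cv c d) x := by
  unfold Fs
  rw [tsum_mul_tsum_eq_tsum_sum_antidiagonal_of_summable_norm (Fs_summable hc x) (Fs_summable hd x)]
  refine tsum_congr fun n => ?_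
  unfold cv
  rw [Finset.sum_mul]
  refine Finset.sum_congr rfl fun p hp => ?_
  rw [HasAntidiagonal.mem_antidiagonal] at hp
  rw [← hp, ← en_mul]
  ring

theorem Fs_sub {c d : ℕ → ℂ} (hc : Summable fun n => ‖c n‖) (hd : Summable fun n => ‖d n‖)
    (t : ℂ) (x : ℝ) : Fs (fun n => c n - t * d n) x = Fs c x - t * Fs d x := by
  unfold Fs
  rw [← tsum_mul_left, ← Summable.tsum_sub (Fs_summable hc x).of_norm
    ((Fs_summable hd x).of_norm.mul_left t)]
  exact tsum_congr fun n => by ring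

theorem parseval {c : ℕ → ℂ} (hc : Summable fun n => ‖c n‖) :
    ∫ x in (0:ℝ)..1, ‖Fs c x‖ ^ 2 = ∑' n, ‖c n‖ ^ 2 :=
  (Pool.Agent.W165.RS.parseval hc).tsum_eq.symm

/-- Cauchy–Schwarz -/
theorem cs {f g : ℝ → ℝ} (hf : Continuous f) (hg : Continuous g) :
    (∫ x in (0:ℝ)..1, f x * g x) ^ 2 ≤ (∫ x in (0:ℝ)..1, f x ^ 2) * ∫ x in (0:ℝ)..1, g x ^ 2 := by
  have key : ∀ t : ℝ, 0 ≤ (∫ x in (0:ℝ)..1, f x ^ 2) * (t * t) +
      (-2 * ∫ x in (0:ℝ)..1, f x * g x) * t + ∫ x in (0:ℝ)..1, g x ^ 2 := by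
    intro t
    have h1 : (∫ x in (0:ℝ)..1, f x ^ 2) * (t * t) +
      (-2 * ∫ x in (0:ℝ)..1, f x * g x) * t + ∫ x in (0:ℝ)..1, g x ^ 2 =
      ∫ x in (0:ℝ)..1, (t * f x - g x) ^ 2 := by
      have e : ∀ x : ℝ, (t * f x - g x) ^ 2 = t * t * f x ^ 2 + (-2 * t) * (f x * g x) + g x ^ 2 := by
        intro x; ring
      simp_rw [e]
      rw [intervalIntegral.integral_add, intervalIntegral.integral_add,
        intervalIntegral.integral_const_mul, intervalIntegral.integral_const_mul]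
      · ring
      all_goals
        apply Continuous.intervalIntegrable
        fun_prop
    rw [h1]
    exact intervalIntegral.integral_nonneg zero_le_one fun x _ => sq_nonneg _
  have h2 := discrim_le_zero key
  unfold discrim at h2
  nlinarith

/-- the energy of a convolution of nonnegative sequences -/
theorem energy_ge {c d : ℕ → ℝ} (hc0 : ∀ n, 0 ≤ c n) (hd0 : ∀ n, 0 ≤ d n)
    (hc : Summable c) (hd : Summable d) :
    (∑' n, c n ^ 2) * (∑' n, d n ^ 2) ≤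
      ∑' n, (∑ p ∈ antidiagonal n, c p.1 * d p.2) ^ 2 := by
  have hsq : ∀ {f : ℕ → ℝ}, (∀ n, 0 ≤ f n) → Summable f → Summable fun n => ‖f n ^ 2‖ := by
    intro f hf0 hf
    have h1 : Summable fun n => f n * (∑' k, f k) := hf.mul_right _
    refine Summable.of_nonneg_of_le (fun n => norm_nonneg _) (fun n => ?_) h1
    rw [Real.norm_eq_abs, abs_of_nonneg (sq_nonneg _), sq]
    exact mul_le_mul_of_nonneg_left (hf.le_tsum n fun k _ => hf0 k) (hf0 n)
  rw [tsum_mul_tsum_eq_tsum_sum_antidiagonal_of_summable_norm (hsq hc0 hc) (hsq hd0 hd)]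
  have hcn : Summable fun n => ‖c n‖ := by
    refine hc.congr fun n => ?_
    rw [Real.norm_eq_abs, abs_of_nonneg (hc0 n)]
  have hdn : Summable fun n => ‖d n‖ := by
    refine hd.congr fun n => ?_
    rw [Real.norm_eq_abs, abs_of_nonneg (hd0 n)]
  have hcd0 : ∀ n, 0 ≤ ∑ p ∈ antidiagonal n, c p.1 * d p.2 := fun n =>
    Finset.sum_nonneg fun p _ => mul_nonneg (hc0 _) (hd0 _)
  have hcd : Summable fun n => ∑ p ∈ antidiagonal n, c p.1 * d p.2 := by
    refine (summable_norm_sum_mul_antidiagonal_of_summable_norm hcn hdn).congr fun n => ?_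
    rw [Real.norm_eq_abs, abs_of_nonneg (hcd0 n)]
  have h3 : ∀ n, ∑ p ∈ antidiagonal n, c p.1 ^ 2 * d p.2 ^ 2 ≤
      (∑ p ∈ antidiagonal n, c p.1 * d p.2) ^ 2 := by
    intro n
    have : ∀ p ∈ antidiagonal n, c p.1 ^ 2 * d p.2 ^ 2 ≤
        (c p.1 * d p.2) * ∑ q ∈ antidiagonal n, c q.1 * d q.2 := by
      intro p hp
      rw [← mul_pow, sq]
      refine mul_le_mul_of_nonneg_left ?_ (mul_nonneg (hc0 _) (hd0 _))
      exact Finset.single_le_sum (f := fun q : ℕ × ℕ => c q.1 * d q.2)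
        (fun q _ => mul_nonneg (hc0 _) (hd0 _)) hp
    calc _ ≤ ∑ p ∈ antidiagonal n, (c p.1 * d p.2) * ∑ q ∈ antidiagonal n, c q.1 * d q.2 :=
          Finset.sum_le_sum this
      _ = _ := by rw [← Finset.sum_mul, sq]
  have h4 : Summable fun n => (∑ p ∈ antidiagonal n, c p.1 * d p.2) ^ 2 := by
    refine (hsq hcd0 hcd).congr fun n => ?_
    rw [Real.norm_eq_abs, abs_of_nonneg (sq_nonneg _)]
  refine Summable.tsum_le_tsum h3 ?_ h4
  exact Summable.of_nonneg_of_le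
    (fun n => Finset.sum_nonneg fun p _ => mul_nonneg (sq_nonneg _) (sq_nonneg _)) h3 h4

/-- lower bound for `|1 - ρ e(x)|` near `0` -/
theorem den_ge {ρ : ℝ} (h0 : 1 / 2 ≤ ρ) (h1 : ρ < 1) {x : ℝ} (hx0 : 0 ≤ x) (hx1 : x ≤ 1) :
    (min ((1 - ρ) + x) ((1 - ρ) + (1 - x))) / 2 ≤ ‖1 - (ρ : ℂ) * en 1 x‖ := by
  have hn : ‖1 - (ρ : ℂ) * en 1 x‖ ^ 2 = (1 - ρ) ^ 2 + 4 * ρ * Real.sin (Real.pi * x) ^ 2 := by
    have he : en 1 x = (Real.cos (2 * Real.pi * x) : ℂ) + (Real.sin (2 * Real.pi * x) : ℂ) * Complex.I := by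
      unfold en Pool.Agent.W165.RS.ee
      rw [show (2 * Real.pi * ((1 : ℕ) : ℤ) * x * Complex.I : ℂ) =
        ((2 * Real.pi * x : ℝ) : ℂ) * Complex.I by push_cast; ring, Complex.exp_mul_I]
      push_cast
      rfl
    rw [he, ← Complex.normSq_eq_norm_sq]
    have h2 : (1 : ℂ) - (ρ : ℂ) * ((Real.cos (2 * Real.pi * x) : ℂ) +
        (Real.sin (2 * Real.pi * x) : ℂ) * Complex.I) =
        ((1 - ρ * Real.cos (2 * Real.pi * x) : ℝ) : ℂ) +
          ((-(ρ * Real.sin (2 * Real.pi * x)) : ℝ) : ℂ) * Complex.I := by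
      push_cast; ring
    rw [h2, Complex.normSq_add_mul_I]
    have h3 : 2 * Real.pi * x = 2 * (Real.pi * x) := by ring
    rw [h3, Real.cos_two_mul, Real.sin_two_mul]
    have h4 := Real.sin_sq_add_cos_sq (Real.pi * x)
    have h5 : Real.cos (Real.pi * x) ^ 2 = 1 - Real.sin (Real.pi * x) ^ 2 := by linarith
    have h6 : (-(ρ * (2 * Real.sin (Real.pi * x) * Real.cos (Real.pi * x)))) ^ 2 =
        4 * ρ ^ 2 * Real.sin (Real.pi * x) ^ 2 * Real.cos (Real.pi * x) ^ 2 := by ring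
    rw [h6, h5]
    ring
  have hpi := Real.pi_pos
  have hs : ∀ y : ℝ, 0 ≤ y → y ≤ 1 / 2 → 2 * y ≤ Real.sin (Real.pi * y) := by
    intro y hy0 hy1
    have := Real.mul_le_sin (x := Real.pi * y) (by positivity) (by nlinarith)
    calc 2 * y = 2 / Real.pi * (Real.pi * y) := by field_simp
      _ ≤ _ := this
  refine le_of_sq_le_sq ?_ (norm_nonneg _)
  rw [hn]
  rcases le_total x (1 / 2) with h | h
  · have h2 := hs x hx0 h
    have h3 : (2 * x) ^ 2 ≤ Real.sin (Real.pi * x) ^ 2 := pow_le_pow_left₀ (by linarith) h2 2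
    have h4 : min ((1 - ρ) + x) ((1 - ρ) + (1 - x)) / 2 ≤ ((1 - ρ) + x) / 2 := by
      have := min_le_left ((1 - ρ) + x) ((1 - ρ) + (1 - x))
      linarith
    have h5 : 0 ≤ min ((1 - ρ) + x) ((1 - ρ) + (1 - x)) / 2 := by
      have := le_min (show (0:ℝ) ≤ (1 - ρ) + x by linarith) (show (0:ℝ) ≤ (1 - ρ) + (1 - x) by linarith)
      linarith
    have h6 := pow_le_pow_left₀ h5 h4 2
    nlinarith [sq_nonneg ((1 - ρ) - x)]
  · have h2 := hs (1 - x) (by linarith) (by linarith)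
    have h7 : Real.sin (Real.pi * (1 - x)) = Real.sin (Real.pi * x) := by
      rw [show Real.pi * (1 - x) = Real.pi - Real.pi * x by ring, Real.sin_pi_sub]
    rw [h7] at h2
    have h3 : (2 * (1 - x)) ^ 2 ≤ Real.sin (Real.pi * x) ^ 2 :=
      pow_le_pow_left₀ (by linarith) h2 2
    have h4 : min ((1 - ρ) + x) ((1 - ρ) + (1 - x)) / 2 ≤ ((1 - ρ) + (1 - x)) / 2 := by
      have := min_le_right ((1 - ρ) + x) ((1 - ρ) + (1 - x))
      linarith
    have h5 : 0 ≤ min ((1 - ρ) + x) ((1 - ρ) + (1 - x)) / 2 := by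
      have := le_min (show (0:ℝ) ≤ (1 - ρ) + x by linarith) (show (0:ℝ) ≤ (1 - ρ) + (1 - x) by linarith)
      linarith
    have h6 := pow_le_pow_left₀ h5 h4 2
    nlinarith [sq_nonneg ((1 - ρ) - (1 - x))]

/-- the geometric sequence -/
noncomputable def geo (ρ : ℝ) (n : ℕ) : ℂ := ((ρ ^ n : ℝ) : ℂ)

theorem geo_summable {ρ : ℝ} (h0 : 0 ≤ ρ) (h1 : ρ < 1) : Summable fun n => ‖geo ρ n‖ := by
  refine (summable_geometric_of_lt_one h0 h1).congr fun n => ?_
  unfold geo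
  rw [Complex.norm_real, Real.norm_eq_abs, abs_of_nonneg (by positivity)]

theorem en_pow (n : ℕ) (x : ℝ) : en n x = en 1 x ^ n := by
  induction n with
  | zero =>
    rw [pow_zero]
    unfold en Pool.Agent.W165.RS.ee
    simp
  | succ n ih => rw [← en_mul, ih, pow_succ]

theorem Fs_geo {ρ : ℝ} (h0 : 0 ≤ ρ) (h1 : ρ < 1) (x : ℝ) :
    Fs (geo ρ) x = (1 - (ρ : ℂ) * en 1 x)⁻¹ := by
  unfold Fs geo
  rw [← tsum_geometric_of_norm_lt_one (by
    rw [norm_mul, en_norm, mul_one, Complex.norm_real, Real.norm_eq_abs, abs_of_nonneg h0]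
    exact h1)]
  refine tsum_congr fun n => ?_
  rw [en_pow, mul_pow]
  push_cast
  rfl

/-- the mean of the geometric kernel -/
theorem kernel {ρ : ℝ} (h0 : 1 / 2 ≤ ρ) (h1 : ρ < 1) :
    ∫ x in (0:ℝ)..1, ‖Fs (geo ρ) x‖ ≤ 4 * Real.log (2 / (1 - ρ)) := by
  have hd : 0 < 1 - ρ := by linarith
  have hc1 : ContinuousOn (fun x : ℝ => 2 * ((1 - ρ) + x)⁻¹) (Set.uIcc 0 1) := by
    refine ContinuousOn.mul continuousOn_const (ContinuousOn.inv₀ (by fun_prop) ?_)
    intro x hx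
    rw [Set.uIcc_of_le zero_le_one] at hx
    linarith [hx.1]
  have hc2 : ContinuousOn (fun x : ℝ => 2 * ((1 - ρ) + (1 - x))⁻¹) (Set.uIcc 0 1) := by
    refine ContinuousOn.mul continuousOn_const (ContinuousOn.inv₀ (by fun_prop) ?_)
    intro x hx
    rw [Set.uIcc_of_le zero_le_one] at hx
    linarith [hx.2]
  have hpt : ∀ x ∈ Set.Icc (0:ℝ) 1, ‖Fs (geo ρ) x‖ ≤
      2 * ((1 - ρ) + x)⁻¹ + 2 * ((1 - ρ) + (1 - x))⁻¹ := by
    intro x hx
    rw [Fs_geo (by linarith) h1, norm_inv]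
    have h2 := den_ge h0 h1 hx.1 hx.2
    have ha : 0 < (1 - ρ) + x := by linarith [hx.1]
    have hb : 0 < (1 - ρ) + (1 - x) := by linarith [hx.2]
    have hm : 0 < min ((1 - ρ) + x) ((1 - ρ) + (1 - x)) := lt_min ha hb
    have h3 : ‖1 - (ρ : ℂ) * en 1 x‖⁻¹ ≤ (min ((1 - ρ) + x) ((1 - ρ) + (1 - x)) / 2)⁻¹ :=
      inv_anti₀ (by positivity) h2
    refine h3.trans ?_
    have h4 := inv_pos.2 ha
    have h5 := inv_pos.2 hb
    rcases min_cases ((1 - ρ) + x) ((1 - ρ) + (1 - x)) with h | h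
    · rw [h.1, inv_div, div_eq_mul_inv]; linarith
    · rw [h.1, inv_div, div_eq_mul_inv]; linarith
  have hi1 := hc1.intervalIntegrable (μ := volume)
  have hi2 := hc2.intervalIntegrable (μ := volume)
  have h3 : ∫ x in (0:ℝ)..1, ‖Fs (geo ρ) x‖ ≤
      ∫ x in (0:ℝ)..1, (2 * ((1 - ρ) + x)⁻¹ + 2 * ((1 - ρ) + (1 - x))⁻¹) := by
    refine intervalIntegral.integral_mono_on zero_le_one ?_ (hi1.add hi2) hpt
    exact ((Fs_cont (geo_summable (by linarith) h1)).norm).intervalIntegrable _ _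
  refine h3.trans ?_
  rw [intervalIntegral.integral_add hi1 hi2, intervalIntegral.integral_const_mul,
    intervalIntegral.integral_const_mul]
  have e1 : ∫ x in (0:ℝ)..1, ((1 - ρ) + x)⁻¹ = Real.log ((2 - ρ) / (1 - ρ)) := by
    rw [intervalIntegral.integral_comp_add_left (fun x => x⁻¹), integral_inv_of_pos]
    · congr 1
      ring
    · linarith
    · linarith
  have e2 : ∫ x in (0:ℝ)..1, ((1 - ρ) + (1 - x))⁻¹ = Real.log ((2 - ρ) / (1 - ρ)) := by
    have h5 := intervalIntegral.integral_comp_sub_left (a := 0) (b := 1)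
      (fun y : ℝ => ((1 - ρ) + y)⁻¹) 1
    rw [sub_self, sub_zero] at h5
    exact h5.trans e1
  rw [e1, e2]
  have h4 : Real.log ((2 - ρ) / (1 - ρ)) ≤ Real.log (2 / (1 - ρ)) := by
    apply Real.log_le_log
    · apply div_pos <;> linarith
    · exact div_le_div_of_nonneg_right (by linarith) hd.le
  linarith

end Pool.Agent.X8.ET
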