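import Pool.Agent.X8.ET.Fix

/-!
# Growing windows
-/

set_option autoImplicit false

open Finset Filter Topology MeasureTheory

namespace Pool.Agent.X8.ET

open Pool.Agent.TH314.ET

theorem Sw_le (A : Set ℕ) {W : Finset ℕ} {w : ℕ → ℝ} (hw : ∀ k, 0 ≤ w k) (hW : ∀ k ∉ W, w k = 0)
    {K : ℕ} (hK : ∀ n, rep A n ≤ K) (n : ℕ) : Sw A w n ≤ K * ∑ k ∈ W, w k := by
  unfold Sw
  calc ∑ p ∈ antidiagonal n, w p.1 * rep A p.2 ≤ ∑ p ∈ antidiagonal n, K * w p.1 := by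
        refine Finset.sum_le_sum fun p _ => ?_
        rw [mul_comm]
        exact mul_le_mul_of_nonneg_right (by exact_mod_cast hK p.2) (hw _)
    _ = K * ∑ k ∈ range (n + 1), w k := by
        rw [← Finset.mul_sum, Finset.Nat.sum_antidiagonal_eq_sum_range_succ (fun i _ => w i)]
    _ ≤ K * ∑ k ∈ W, w k := by
        refine mul_le_mul_of_nonneg_left ?_ (Nat.cast_nonneg _)
        calc ∑ k ∈ range (n + 1), w k = ∑ k ∈ (range (n + 1)).filter (· ∈ W), w k := by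
              rw [Finset.sum_filter]
              refine Finset.sum_congr rfl fun k _ => ?_
              split_ifs with h
              · rfl
              · exact hW k h
          _ ≤ ∑ k ∈ W, w k := Finset.sum_le_sum_of_subset_of_nonneg
              (fun k hk => (Finset.mem_filter.1 hk).2) fun k _ _ => hw k

/-- the squares are controlled by the square of the sum -/
theorem sq_le_sq_sum {W : Finset ℕ} {w : ℕ → ℝ} (hw : ∀ k, 0 ≤ w k) :
    ∑ k ∈ W, w k ^ 2 ≤ (∑ k ∈ W, w k) ^ 2 := by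
  rw [sq, Finset.sum_mul]
  refine Finset.sum_le_sum fun k hk => ?_
  rw [sq]
  exact mul_le_mul_of_nonneg_left (Finset.single_le_sum (fun j _ => hw j) hk) (hw k)

/-- the energy of a window sum which is close to `t` on `[M, N]` -/
theorem energy_up (A : Set ℕ) {w : ℕ → ℝ} {M N : ℕ} {t H m : ℝ} (hm : 0 ≤ m) (hH : ∀ n, |Sw A w n - t| ≤ H)
    (h : ∀ n, M ≤ n → n ≤ N → (Sw A w n - t) ^ 2 ≤ m) {ρ : ℝ} (h0 : 0 ≤ ρ) (h1 : ρ < 1) :
    ∑' n, (Sw A w n - t) ^ 2 * ρ ^ (2 * n) ≤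
      M * H ^ 2 + m * (1 - ρ ^ 2)⁻¹ + H ^ 2 * ρ ^ N * (1 - ρ)⁻¹ := by
  have hR0 : 0 ≤ ρ ^ 2 := by positivity
  have hR1 : ρ ^ 2 < 1 := by nlinarith
  have hH0 : 0 ≤ H := (abs_nonneg _).trans (hH 0)
  obtain ⟨D, hD⟩ : ∃ D : ℕ → ℝ, D = fun n => if n < M then H ^ 2 else 0 := ⟨_, rfl⟩
  have hDs : Summable D := summable_of_ne_finset_zero (s := range M) fun n hn => by
    rw [hD]
    show (if n < M then H ^ 2 else 0) = 0
    rw [if_neg (by simpa using hn)]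
  have hDt : ∑' n, D n = M * H ^ 2 := by
    rw [tsum_eq_sum (s := range M) fun n hn => by
      rw [hD]
      show (if n < M then H ^ 2 else 0) = 0
      rw [if_neg (by simpa using hn)]]
    rw [hD, Finset.sum_congr rfl (g := fun _ => H ^ 2) (fun n hn => by
      show (if n < M then H ^ 2 else 0) = _
      rw [if_pos (by simpa using hn)])]
    rw [Finset.sum_const, card_range, nsmul_eq_mul]
  have hg1 := summable_geometric_of_lt_one hR0 hR1
  have hg2 := summable_geometric_of_lt_one h0 h1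
  have hD0 : ∀ n, 0 ≤ D n := by
    intro n
    rw [hD]
    show 0 ≤ (if n < M then H ^ 2 else 0)
    split_ifs
    · positivity
    · exact le_rfl
  have hpt : ∀ n, (Sw A w n - t) ^ 2 * ρ ^ (2 * n) ≤
      D n + m * (ρ ^ 2) ^ n + H ^ 2 * ρ ^ N * ρ ^ n := by
    intro n
    have hp0 : 0 ≤ ρ ^ (2 * n) := by positivity
    have hp1 : ρ ^ (2 * n) ≤ 1 := pow_le_one₀ h0 h1.le
    have h2 : (Sw A w n - t) ^ 2 ≤ H ^ 2 := by
      rw [← sq_abs]
      exact pow_le_pow_left₀ (abs_nonneg _) (hH n) 2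
    have h3 : 0 ≤ m * (ρ ^ 2) ^ n := by positivity
    have h4 : 0 ≤ H ^ 2 * ρ ^ N * ρ ^ n := by positivity
    by_cases hn : n < M
    · have h5 : D n = H ^ 2 := by rw [hD]; exact if_pos hn
      rw [h5]
      have h6 : (Sw A w n - t) ^ 2 * ρ ^ (2 * n) ≤ (Sw A w n - t) ^ 2 :=
        mul_le_of_le_one_right (sq_nonneg _) hp1
      linarith
    · by_cases hn2 : n ≤ N
      · have h6 := mul_le_mul_of_nonneg_right (h n (by omega) hn2) hp0
        rw [pow_mul] at h6 ⊢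
        linarith [hD0 n]
      · have h6 := mul_le_mul_of_nonneg_right h2 hp0
        have h7 : ρ ^ (2 * n) ≤ ρ ^ N * ρ ^ n := by
          rw [← pow_add]
          exact pow_le_pow_of_le_one h0 h1.le (by omega)
        have h8 := mul_le_mul_of_nonneg_left h7 (sq_nonneg H)
        linarith [hD0 n]
  have hsum := (hDs.add (hg1.mul_left m)).add (hg2.mul_left (H ^ 2 * ρ ^ N))
  have h5 : ∑' n, (Sw A w n - t) ^ 2 * ρ ^ (2 * n) ≤
      ∑' n, (D n + m * (ρ ^ 2) ^ n + H ^ 2 * ρ ^ N * ρ ^ n) := by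
    refine Summable.tsum_le_tsum hpt ?_ hsum
    exact Summable.of_nonneg_of_le (fun n => by positivity) hpt hsum
  rw [(hDs.add (hg1.mul_left m)).tsum_add (hg2.mul_left (H ^ 2 * ρ ^ N)),
    hDs.tsum_add (hg1.mul_left m), tsum_mul_left, tsum_mul_left, hDt,
    tsum_geometric_of_lt_one hR0 hR1, tsum_geometric_of_lt_one h0 h1] at h5
  exact h5

/-- the numerical part of the theorem on growing windows -/
theorem num {y z r B Br s G T Q m m' t M rN Λ : ℝ} (hy : 2 < y) (hz : 1 ≤ z)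
    (hr0 : 1 / 2 ≤ r) (hr1 : r < 1) (hr : 1 - r = 2 * y ^ 2 / z ^ 2)
    (hB : 0 < B) (hs : 0 < s) (hc1 : s ^ 2 * y ^ 4 ≤ z * B) (hM0 : 0 ≤ M)
    (hM : M * s ^ 2 * y ^ 4 ≤ z ^ 2 * B) (hBr1 : B * (1 - 4 * (y ^ 2)⁻¹) ≤ Br) (hBr2 : Br ≤ B)
    (hG : 0 ≤ G) (hmG : m' ≤ (1 - r ^ 2) * G ^ 2) (hQ : 0 ≤ Q)
    (ht0 : 0 ≤ t) (ht : t ≤ Q * s) (hΛ0 : 0 ≤ Λ) (hΛ : Λ ≤ y ^ 2) (hT0 : 0 ≤ T)
    (hrN0 : 0 ≤ rN) (hrN : rN * z ≤ 1)
    (hmain : Br * G - t * s * (4 * Λ) ≤ √(Br * T))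
    (hup : T ≤ M * (Q * s) ^ 2 + m * B * (1 - r ^ 2)⁻¹ + (Q * s) ^ 2 * rN * (1 - r)⁻¹) :
    (1 - 4 * (y ^ 2)⁻¹) * √m' - 8 * Q * y⁻¹ ≤ √(m + 6 * Q ^ 2 * (y ^ 2)⁻¹) := by
  have hy0 : 0 < y := by linarith
  have hz0 : 0 < z := by linarith
  have hD0 : 0 < 1 - r ^ 2 := by nlinarith
  obtain ⟨D, hD⟩ : ∃ D : ℝ, D = 1 - r ^ 2 := ⟨_, rfl⟩
  have hD2 : D = (1 - r) * (1 + r) := by rw [hD]; ring
  have h1r : 0 < 1 - r := by linarith
  have hDle : D ≤ (2 * y / z) ^ 2 := by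
    rw [hD2, hr]
    have : (2 * y / z) ^ 2 = 2 * y ^ 2 / z ^ 2 * 2 := by
      rw [div_pow]; ring
    rw [this]
    exact mul_le_mul_of_nonneg_left (by linarith) (by positivity)
  rw [← hD] at hD0 hmG hup
  have hsD : √D ≤ 2 * y / z := by
    rw [← Real.sqrt_sq (show 0 ≤ 2 * y / z by positivity)]
    exact Real.sqrt_le_sqrt hDle
  have hsD0 : 0 ≤ √D := Real.sqrt_nonneg _
  -- main term
  have h1 : √m' ≤ √D * G := by
    have : √D * G = √(D * G ^ 2) := by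
      rw [Real.sqrt_mul hD0.le, Real.sqrt_sq hG]
    rw [this]
    exact Real.sqrt_le_sqrt hmG
  have h4y : 0 ≤ 1 - 4 * (y ^ 2)⁻¹ := by
    have h2 : (4 : ℝ) ≤ y ^ 2 := by nlinarith
    have h3 : 4 * (y ^ 2)⁻¹ ≤ 1 := by
      rw [← div_eq_mul_inv, div_le_one (by positivity)]
      exact h2
    linarith
  have h2 : B * ((1 - 4 * (y ^ 2)⁻¹) * √m') ≤ √D * (Br * G) := by
    calc B * ((1 - 4 * (y ^ 2)⁻¹) * √m') = (B * (1 - 4 * (y ^ 2)⁻¹)) * √m' := by ring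
      _ ≤ Br * (√D * G) := mul_le_mul hBr1 h1 (Real.sqrt_nonneg _)
          ((mul_nonneg hB.le h4y).trans hBr1)
      _ = _ := by ring
  -- error term
  have h3 : √D * (t * s * (4 * Λ)) ≤ B * (8 * Q * y⁻¹) := by
    have e1 : t * s * (4 * Λ) ≤ Q * s ^ 2 * (4 * y ^ 2) := by
      have e2 : t * s ≤ Q * s ^ 2 := by
        have := mul_le_mul_of_nonneg_right ht hs.le
        linarith [sq s]
      exact mul_le_mul e2 (by linarith) (by positivity) (by positivity)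
    have e2 : √D * (t * s * (4 * Λ)) ≤ 2 * y / z * (Q * s ^ 2 * (4 * y ^ 2)) :=
      mul_le_mul hsD e1 (by positivity) (by positivity)
    refine e2.trans ?_
    have e3 : 2 * y / z * (Q * s ^ 2 * (4 * y ^ 2)) = 8 * Q * y⁻¹ * ((s ^ 2 * y ^ 4) / z) := by
      field_simp
      ring
    have e4 : (s ^ 2 * y ^ 4) / z ≤ B := by
      rw [div_le_iff₀ hz0]; linarith
    rw [e3, mul_comm B]
    exact mul_le_mul_of_nonneg_left e4 (by positivity)
  -- right hand side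
  have h5 : D * T ≤ B * (m + 6 * Q ^ 2 * (y ^ 2)⁻¹) := by
    have e1 := mul_le_mul_of_nonneg_left hup hD0.le
    refine e1.trans ?_
    have e2 : D * (M * (Q * s) ^ 2) ≤ B * (4 * Q ^ 2 * (y ^ 2)⁻¹) := by
      have a1 : D * (M * (Q * s) ^ 2) ≤ (2 * y / z) ^ 2 * (M * (Q * s) ^ 2) :=
        mul_le_mul_of_nonneg_right hDle (by positivity)
      have a2 : (2 * y / z) ^ 2 * (M * (Q * s) ^ 2) =
          4 * Q ^ 2 * (y ^ 2)⁻¹ * ((M * s ^ 2 * y ^ 4) / z ^ 2) := by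
        field_simp
        ring
      have a3 : (M * s ^ 2 * y ^ 4) / z ^ 2 ≤ B := by
        rw [div_le_iff₀ (by positivity)]; linarith
      refine a1.trans ?_
      rw [a2, mul_comm B]
      exact mul_le_mul_of_nonneg_left a3 (by positivity)
    have e3 : D * (m * B * D⁻¹) = B * m := by
      field_simp
    have e4 : D * ((Q * s) ^ 2 * rN * (1 - r)⁻¹) ≤ B * (2 * Q ^ 2 * (y ^ 2)⁻¹) := by
      have a1 : D * ((Q * s) ^ 2 * rN * (1 - r)⁻¹) = (1 + r) * (Q ^ 2 * (s ^ 2 * rN)) := by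
        rw [hD2]
        field_simp
      have a2 : s ^ 2 * rN ≤ B * (y ^ 2)⁻¹ := by
        have b1 : s ^ 2 * rN * y ^ 4 ≤ B := by
          calc s ^ 2 * rN * y ^ 4 = (s ^ 2 * y ^ 4) * rN := by ring
            _ ≤ (z * B) * rN := mul_le_mul_of_nonneg_right hc1 hrN0
            _ = B * (rN * z) := by ring
            _ ≤ B * 1 := mul_le_mul_of_nonneg_left hrN hB.le
            _ = B := mul_one B
        have b2 : (1 : ℝ) ≤ y ^ 2 := one_le_pow₀ (by linarith)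
        rw [← div_eq_mul_inv, le_div_iff₀ (by positivity)]
        calc s ^ 2 * rN * y ^ 2 ≤ s ^ 2 * rN * y ^ 2 * y ^ 2 :=
              le_mul_of_one_le_right (by positivity) b2
          _ = s ^ 2 * rN * y ^ 4 := by ring
          _ ≤ B := b1
      rw [a1]
      calc (1 + r) * (Q ^ 2 * (s ^ 2 * rN)) ≤ 2 * (Q ^ 2 * (B * (y ^ 2)⁻¹)) := by
            refine mul_le_mul (by linarith) ?_ (by positivity) (by norm_num)
            exact mul_le_mul_of_nonneg_left a2 (sq_nonneg _)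
        _ = _ := by ring
    rw [mul_add, mul_add, e3]
    linarith
  have h6 : √D * √(Br * T) ≤ B * √(m + 6 * Q ^ 2 * (y ^ 2)⁻¹) := by
    rw [← Real.sqrt_mul hD0.le]
    have e1 : B * √(m + 6 * Q ^ 2 * (y ^ 2)⁻¹) =
        √(B * (B * (m + 6 * Q ^ 2 * (y ^ 2)⁻¹))) := by
      rw [← mul_assoc, Real.sqrt_mul (by positivity), Real.sqrt_mul_self hB.le]
    rw [e1]
    refine Real.sqrt_le_sqrt ?_
    calc D * (Br * T) = Br * (D * T) := by ring
      _ ≤ B * (B * (m + 6 * Q ^ 2 * (y ^ 2)⁻¹)) :=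
        mul_le_mul hBr2 h5 (by positivity) hB.le
  have h7 := mul_le_mul_of_nonneg_left hmain hsD0
  rw [mul_sub] at h7
  have h8 : B * ((1 - 4 * (y ^ 2)⁻¹) * √m' - 8 * Q * y⁻¹) ≤
      B * √(m + 6 * Q ^ 2 * (y ^ 2)⁻¹) := by
    rw [mul_sub]
    linarith
  exact le_of_mul_le_mul_left h8 hB

/-- **Growing windows.** -/
theorem growing (A : Set ℕ) (K : ℕ) (hK : ∀ n, rep A n ≤ K) (m m' : ℝ) (hm : 0 ≤ m)
    (hmm : m < m') (hA : ∀ᶠ R : ℝ in 𝓝[<] 1, m' ≤ (1 - R) * gf A R ^ 2) :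
    ∀ᶠ N : ℕ in atTop, ∀ (W : Finset ℕ) (w : ℕ → ℝ), (∀ k, 0 ≤ w k) → (∀ k ∉ W, w k = 0) →
      0 < ∑ k ∈ W, w k →
      (∑ k ∈ W, w k) ^ 2 * Real.log N ^ 2 ≤ √N * ∑ k ∈ W, w k ^ 2 →
      (∀ k ∈ W, k * (∑ k ∈ W, w k) ^ 2 * Real.log N ^ 2 ≤ N * ∑ k ∈ W, w k ^ 2) →
      ∀ t : ℝ, ∃ n ≤ N, (∀ k ∈ W, k ≤ n) ∧ m * ∑ k ∈ W, w k ^ 2 ≤ (Sw A w n - t) ^ 2 := by
  obtain ⟨Q, hQ⟩ : ∃ Q : ℝ, Q = 2 * K + √m := ⟨_, rfl⟩
  have hQ0 : 0 ≤ Q := hQ ▸ by positivity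
  -- the limits
  have hlog : Tendsto (fun N : ℕ => Real.log N) atTop atTop :=
    Real.tendsto_log_atTop.comp tendsto_natCast_atTop_atTop
  have hinv : Tendsto (fun N : ℕ => (Real.log N)⁻¹) atTop (𝓝 0) := tendsto_inv_atTop_zero.comp hlog
  have hsq : Tendsto (fun N : ℕ => √((Real.log N)⁻¹)) atTop (𝓝 0) := by
    have := hinv.sqrt
    rwa [Real.sqrt_zero] at this
  have hL1 : Tendsto (fun N : ℕ => (1 - 4 * (Real.log N)⁻¹) * √m' -
      8 * Q * √((Real.log N)⁻¹)) atTop (𝓝 ((1 - 4 * 0) * √m' - 8 * Q * 0)) :=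
    (((hinv.const_mul 4).const_sub 1).mul_const _).sub (hsq.const_mul _)
  have hL2 : Tendsto (fun N : ℕ => √(m + 6 * Q ^ 2 * (Real.log N)⁻¹)) atTop
      (𝓝 (√(m + 6 * Q ^ 2 * 0))) := ((hinv.const_mul _).const_add _).sqrt
  have hlt : √(m + 6 * Q ^ 2 * 0) < (1 - 4 * 0) * √m' - 8 * Q * 0 := by
    have := Real.sqrt_lt_sqrt hm hmm
    simpa using this
  have hev := hL2.eventually_lt hL1 hlt
  -- the parameter
  obtain ⟨ρ, hρ⟩ : ∃ ρ : ℕ → ℝ, ρ = fun N : ℕ => 1 - 2 * Real.log N / N := ⟨_, rfl⟩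
  have hρlim : Tendsto (fun N : ℕ => 2 * Real.log N / N) atTop (𝓝 0) := by
    have h1 : Tendsto (fun x : ℝ => Real.log x / x) atTop (𝓝 0) := by
      have := Real.isLittleO_log_id_atTop.tendsto_div_nhds_zero
      simpa using this
    have h2 := (h1.comp tendsto_natCast_atTop_atTop).const_mul 2
    rw [mul_zero] at h2
    refine h2.congr fun N => ?_
    simp only [Function.comp]
    ring
  have hsmall := hρlim.eventually_lt_const (show (0 : ℝ) < 1 / 2 by norm_num)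
  have hbig := hlog.eventually_gt_atTop 4
  have hR : Tendsto (fun N : ℕ => ρ N ^ 2) atTop (𝓝[<] 1) := by
    refine tendsto_nhdsWithin_iff.2 ⟨?_, ?_⟩
    · have h1 : Tendsto (fun N : ℕ => (1 - 2 * Real.log N / N) ^ 2) atTop (𝓝 ((1 - 0) ^ 2)) :=
        (hρlim.const_sub 1).pow 2
      rw [hρ]
      simpa using h1
    · filter_upwards [hsmall, hbig, eventually_ge_atTop 1] with N h1 h2 h3
      have hN : (0 : ℝ) < N := by exact_mod_cast h3
      have h4 : 0 < 2 * Real.log N / N := by positivity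
      rw [hρ, Set.mem_Iio]
      show (1 - 2 * Real.log N / N) ^ 2 < 1
      nlinarith
  filter_upwards [hev, hsmall, hbig, hR.eventually hA, eventually_ge_atTop 3] with N hN1 hN2 hN3 hN4
    hN5
  intro W w hw hW hpos hc1 hc2 t
  by_contra hcon
  push Not at hcon
  -- notation
  obtain ⟨x, hx⟩ : ∃ x : ℝ, x = (N : ℝ) := ⟨_, rfl⟩
  obtain ⟨ℓ, hℓ⟩ : ∃ ℓ : ℝ, ℓ = Real.log N := ⟨_, rfl⟩
  obtain ⟨s, hs⟩ : ∃ s : ℝ, s = ∑ k ∈ W, w k := ⟨_, rfl⟩
  obtain ⟨B, hB⟩ : ∃ B : ℝ, B = ∑ k ∈ W, w k ^ 2 := ⟨_, rfl⟩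
  obtain ⟨r, hr⟩ : ∃ r : ℝ, r = ρ N := ⟨_, rfl⟩
  obtain ⟨G, hG⟩ : ∃ G : ℝ, G = gf A (r ^ 2) := ⟨_, rfl⟩
  have hr' : r = 1 - 2 * ℓ / x := by rw [hr, hρ, hℓ, hx]
  rw [← hr, ← hG] at hN4
  rw [← hℓ] at hN1 hN2 hN3 hc1 hc2
  rw [← hx] at hN2 hc1 hc2
  rw [← hs] at hpos hc1 hc2
  rw [← hB] at hc1 hc2 hcon
  have hx3 : (3 : ℝ) ≤ x := by rw [hx]; exact_mod_cast hN5
  have hx0 : 0 < x := by linarith
  have hℓ0 : 0 < ℓ := by linarith
  have hr0 : 1 / 2 ≤ r := by rw [hr']; linarith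
  have h2l : 0 < 2 * ℓ / x := by positivity
  have hr1 : r < 1 := by rw [hr']; linarith
  have hrn : 0 ≤ r := by linarith
  have hR0 : 0 ≤ r ^ 2 := by positivity
  have hR1 : r ^ 2 < 1 := by nlinarith
  have hG0 : 0 ≤ G := hG ▸ gf_nonneg A hR0
  have hBs : B ≤ s ^ 2 := by rw [hB, hs]; exact sq_le_sq_sum hw
  have hs2 : 0 < s ^ 2 := by positivity
  have hBpos : 0 < B := by
    have h1 : 0 < s ^ 2 * ℓ ^ 2 := by positivity
    have h2 : 0 < √x * B := lt_of_lt_of_le h1 hc1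
    exact pos_of_mul_pos_right h2 (Real.sqrt_nonneg _)
  -- the largest element of the window
  obtain ⟨M, hM⟩ : ∃ M : ℕ, M = W.sup id := ⟨_, rfl⟩
  have hWM : ∀ k ∈ W, k ≤ M := fun k hk => hM ▸ Finset.le_sup (f := id) hk
  have hne : W.Nonempty := by
    rw [Finset.nonempty_iff_ne_empty]
    rintro rfl
    rw [hs] at hpos
    simp at hpos
  have hMW : M ∈ W := by
    obtain ⟨k, hk, hk2⟩ := Finset.exists_mem_eq_sup W hne id
    rw [hM, hk2]
    exact hk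
  have hMb := hc2 M hMW
  have hM1 : (M : ℝ) * ℓ ^ 2 ≤ x := by
    have h1 : (M : ℝ) * ℓ ^ 2 * s ^ 2 ≤ x * s ^ 2 := by
      calc (M : ℝ) * ℓ ^ 2 * s ^ 2 = M * s ^ 2 * ℓ ^ 2 := by ring
        _ ≤ x * B := hMb
        _ ≤ x * s ^ 2 := mul_le_mul_of_nonneg_left hBs hx0.le
    exact le_of_mul_le_mul_right h1 hs2
  have hMN : M ≤ N := by
    have h1 : (M : ℝ) ≤ M * ℓ ^ 2 := by
      have : (1 : ℝ) ≤ ℓ ^ 2 := by nlinarith
      nlinarith [(Nat.cast_nonneg M : (0 : ℝ) ≤ M)]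
    have h2 : (M : ℝ) ≤ N := by rw [← hx]; linarith
    exact_mod_cast h2
  -- the size of `t`
  have hSK : ∀ n, Sw A w n ≤ K * s := fun n => hs ▸ Sw_le A hw hW hK n
  have hS0 : ∀ n, 0 ≤ Sw A w n := Sw_nonneg A hw
  have hsm : √(m * B) ≤ √m * s := by
    rw [Real.sqrt_mul hm]
    refine mul_le_mul_of_nonneg_left ?_ (Real.sqrt_nonneg _)
    have h1 := Real.sqrt_le_sqrt hBs
    rwa [Real.sqrt_sq hpos.le] at h1
  have hK0 : (0 : ℝ) ≤ K := Nat.cast_nonneg K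
  have htb : |t| ≤ (K + √m) * s := by
    have h1 := hcon M hMN hWM
    have h2 : |Sw A w M - t| ≤ √(m * B) := by
      apply Real.le_sqrt_of_sq_le
      rw [sq_abs]
      exact h1.le
    have h3 : |t| ≤ |Sw A w M - t| + |Sw A w M| := by
      have := abs_sub_abs_le_abs_sub t (Sw A w M)
      rw [abs_sub_comm t] at this
      linarith
    rw [abs_of_nonneg (hS0 M)] at h3
    have := hSK M
    linarith
  have hH : ∀ n, |Sw A w n - t| ≤ Q * s := by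
    intro n
    have h1 : |Sw A w n - t| ≤ |Sw A w n| + |t| := abs_sub _ _
    rw [abs_of_nonneg (hS0 n)] at h1
    have := hSK n
    rw [hQ]
    linarith
  have hup := energy_up A (w := w) (M := M) (N := N) (t := t) (H := Q * s) (m := m * B)
    (by positivity) hH (fun n h1 h2 => (hcon n h2 fun k hk => (hWM k hk).trans h1).le) hrn hr1
  have hmain := main_ineq A W w hw hW t hr0 hr1
  rw [← hG, ← hs] at hmain
  obtain ⟨Br, hBr⟩ : ∃ Br : ℝ, Br = ∑ k ∈ W, w k ^ 2 * r ^ (2 * k) := ⟨_, rfl⟩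
  obtain ⟨T, hT⟩ : ∃ T : ℝ, T = ∑' n, (Sw A w n - t) ^ 2 * r ^ (2 * n) := ⟨_, rfl⟩
  rw [← hBr, ← hT] at hmain
  rw [← hT] at hup
  have hBl := B_ge (w := w) hWM hrn hr1
  have hBu := B_le (W := W) (w := w) hrn hr1
  rw [← hB, ← hBr] at hBl hBu
  have hT0 : 0 ≤ T := hT ▸ tsum_nonneg fun n => by positivity
  have hBr0 : 0 ≤ Br := hBr ▸ Finset.sum_nonneg fun k _ => by positivity
  -- elementary estimates
  have e1 : 1 - r = 2 * ℓ / x := by rw [hr']; ring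
  have e3 : B * (1 - 4 * ℓ⁻¹) ≤ Br := by
    refine le_trans (mul_le_mul_of_nonneg_left ?_ hBpos.le) hBl
    rw [e1]
    have h1 : 2 * (M : ℝ) * (2 * ℓ / x) = 4 * ℓ⁻¹ * (M * ℓ ^ 2 / x) := by
      field_simp
      ring
    rw [h1]
    have h2 : (M : ℝ) * ℓ ^ 2 / x ≤ 1 := (div_le_one hx0).2 hM1
    have h3 : 0 < 4 * ℓ⁻¹ := by positivity
    have h4 := mul_le_mul_of_nonneg_left h2 h3.le
    linarith
  have e5 : Real.log (2 / (1 - r)) ≤ ℓ := by
    have h1 : 2 / (1 - r) = x / ℓ := by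
      rw [e1]
      field_simp
    rw [h1, hℓ, ← hx]
    apply Real.log_le_log
    · rw [hx, ← hℓ, ← hx]
      positivity
    · rw [hx, ← hℓ, ← hx]
      exact div_le_self hx0.le (by linarith)
  have e6 : 0 ≤ Real.log (2 / (1 - r)) := by
    apply Real.log_nonneg
    rw [le_div_iff₀ (by linarith)]
    linarith
  have e7 : r ^ N * √x ≤ 1 := by
    have h1 : r ≤ Real.exp (-(2 * ℓ / x)) := by
      have := Real.add_one_le_exp (-(2 * ℓ / x))
      rw [hr']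
      linarith
    have h2 : r ^ N ≤ Real.exp (-(2 * ℓ)) := by
      calc r ^ N ≤ Real.exp (-(2 * ℓ / x)) ^ N := pow_le_pow_left₀ hrn h1 N
        _ = Real.exp (-(2 * ℓ)) := by
          rw [← Real.exp_nat_mul, ← hx]
          congr 1
          field_simp
    have h3 : Real.exp (-(2 * ℓ)) = (x ^ 2)⁻¹ := by
      rw [Real.exp_neg, two_mul, Real.exp_add, hℓ, Real.exp_log (by rw [← hx]; exact hx0), ← hx, sq]
    rw [h3] at h2
    have h4 : √x ≤ x := by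
      rw [Real.sqrt_le_left hx0.le]
      nlinarith
    calc r ^ N * √x ≤ (x ^ 2)⁻¹ * x := mul_le_mul h2 h4 (Real.sqrt_nonneg _) (by positivity)
      _ = x⁻¹ := by field_simp
      _ ≤ 1 := inv_le_one_of_one_le₀ (by linarith)
  have hy2 : √ℓ ^ 2 = ℓ := Real.sq_sqrt hℓ0.le
  have hz2 : √x ^ 2 = x := Real.sq_sqrt hx0.le
  have hy4 : √ℓ ^ 4 = ℓ ^ 2 := by rw [show (4 : ℕ) = 2 * 2 by norm_num, pow_mul, hy2]
  have hy : 2 < √ℓ := by
    rw [Real.lt_sqrt (by norm_num)]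
    norm_num
    exact hN3
  have hz : 1 ≤ √x := by
    rw [Real.one_le_sqrt]
    linarith
  have hfin := num (y := √ℓ) (z := √x) (r := r) (B := B) (Br := Br) (s := s) (G := G) (T := T)
    (Q := Q) (m := m) (m' := m') (t := |t|) (M := M) (rN := r ^ N)
    (Λ := Real.log (2 / (1 - r))) hy hz hr0 hr1 (by rw [hy2, hz2, e1]) hBpos hpos
    (by rw [hy4]; exact hc1) (Nat.cast_nonneg _) (by rw [hy4, hz2]; exact hMb)
    (by rw [hy2]; exact e3) hBu hG0 hN4 hQ0 (abs_nonneg _)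
    (htb.trans (mul_le_mul_of_nonneg_right (by rw [hQ]; linarith) hpos.le)) e6
    (by rw [hy2]; exact e5) hT0 (by positivity) e7 hmain hup
  rw [hy2, ← Real.sqrt_inv] at hfin
  linarith

end Pool.Agent.X8.ET
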