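import Pool.Agent.X8.ET.Grow

/-!
# Windows for thin sets
-/

set_option autoImplicit false

open Finset Filter Topology MeasureTheory

namespace Pool.Agent.X8.ET

open Pool.Agent.TH314.ET

theorem gf_mono (A : Set ℕ) {a b : ℝ} (h0 : 0 ≤ a) (h : a ≤ b) (h1 : b < 1) : gf A a ≤ gf A b := by
  classical
  have hs : ∀ c : ℝ, 0 ≤ c → c < 1 → Summable fun n : ℕ => (if n ∈ A then c ^ n else 0 : ℝ) := by
    intro c hc0 hc1
    refine Summable.of_nonneg_of_le (fun n => by split_ifs <;> positivity) (fun n => ?_)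
      (summable_geometric_of_lt_one hc0 hc1)
    split_ifs
    · exact le_rfl
    · positivity
  unfold gf
  refine Summable.tsum_le_tsum (fun n => ?_) (hs a h0 (h.trans_lt h1)) (hs b (h0.trans h) h1)
  split_ifs
  · exact pow_le_pow_left₀ h0 h n
  · exact le_rfl

/-- the generating function of a thin set at `(1 - 2 log N / N) ^ 2` -/
theorem thin_ev (A : Set ℕ) (g : ℕ → ℝ) (hg : Monotone g) (hg0 : ∀ N, 0 < g N) (C : ℝ) (hC : 0 < C)
    (h : ∀ᶠ N : ℕ in atTop, √N / g N ≤ C * ((A ∩ Set.Icc 1 N).ncard : ℝ)) {m' : ℝ}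
    (hm : m' < 1 / (8 * C ^ 2)) :
    ∀ᶠ N : ℕ in atTop, m' ≤ g N ^ 2 * ((1 - (1 - 2 * Real.log N / N) ^ 2) *
      gf A ((1 - 2 * Real.log N / N) ^ 2) ^ 2) := by
  -- the scale `x = ⌊N / (8 log N)⌋`
  have hlog : Tendsto (fun N : ℕ => Real.log N) atTop atTop :=
    Real.tendsto_log_atTop.comp tendsto_natCast_atTop_atTop
  have hρlim : Tendsto (fun N : ℕ => Real.log N / N) atTop (𝓝 0) := by
    have h1 : Tendsto (fun x : ℝ => Real.log x / x) atTop (𝓝 0) := by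
      have := Real.isLittleO_log_id_atTop.tendsto_div_nhds_zero
      simpa using this
    exact h1.comp tendsto_natCast_atTop_atTop
  have hq : Tendsto (fun N : ℕ => (1 - Real.log N / N) * (1 / 8 - Real.log N / N) / C ^ 2) atTop
      (𝓝 ((1 - 0) * (1 / 8 - 0) / C ^ 2)) :=
    (((hρlim.const_sub 1).mul (hρlim.const_sub (1 / 8))).div_const _)
  have hlt : m' < (1 - 0) * (1 / 8 - 0) / C ^ 2 := by
    refine hm.trans_le (le_of_eq ?_)
    field_simp
    ring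
  have hx : Tendsto (fun N : ℕ => ⌊(N : ℝ) / (8 * Real.log N)⌋₊) atTop atTop := by
    apply tendsto_nat_floor_atTop.comp
    have h1 : Tendsto (fun N : ℕ => (Real.log N / N)⁻¹ / 8) atTop atTop := by
      apply Tendsto.atTop_div_const (by norm_num)
      apply Tendsto.inv_tendsto_nhdsGT_zero
      refine tendsto_nhdsWithin_iff.2 ⟨hρlim, ?_⟩
      filter_upwards [eventually_ge_atTop 2] with N hN
      have : (1 : ℝ) < N := by exact_mod_cast hN
      exact div_pos (Real.log_pos this) (by linarith)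
    refine h1.congr fun N => ?_
    rw [inv_div, div_div, mul_comm]
  filter_upwards [hq.eventually_const_lt hlt, hx.eventually h, hx.eventually_ge_atTop 1,
    hρlim.eventually_lt_const (show (0 : ℝ) < 1 / 8 by norm_num), hlog.eventually_gt_atTop 1,
    eventually_ge_atTop 2] with N h1 h2 h3 h4 h5 h6
  set ℓ : ℝ := Real.log N with hℓ
  set x : ℕ := ⌊(N : ℝ) / (8 * ℓ)⌋₊ with hxdef
  have hN0 : (0 : ℝ) < N := by exact_mod_cast (by omega : 0 < N)
  have hℓ0 : 0 < ℓ := by linarith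
  have hx1 : (1 : ℝ) ≤ x := by exact_mod_cast h3
  have hx0 : (0 : ℝ) < x := by linarith
  have hxle : (x : ℝ) ≤ N / (8 * ℓ) := Nat.floor_le (by positivity)
  have hxge : (N : ℝ) / (8 * ℓ) - 1 ≤ x := by
    have := Nat.lt_floor_add_one ((N : ℝ) / (8 * ℓ))
    linarith
  have hxN : x ≤ N := by
    have h7 : (x : ℝ) ≤ N := by
      refine hxle.trans ?_
      rw [div_le_iff₀ (by positivity)]
      nlinarith
    exact_mod_cast h7
  -- comparison of the radii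
  have hr : (1 - 1 / (4 * (x : ℝ))) ^ 2 ≤ (1 - 2 * ℓ / N) ^ 2 := by
    apply pow_le_pow_left₀
    · have : 1 / (4 * (x : ℝ)) ≤ 1 := by
        rw [div_le_one (by positivity)]
        linarith
      linarith
    · have : 2 * ℓ / N ≤ 1 / (4 * (x : ℝ)) := by
        rw [div_le_div_iff₀ hN0 (by positivity)]
        rw [le_div_iff₀ (by positivity)] at hxle
        linarith
      linarith
  have hr1 : (1 - 2 * ℓ / N) ^ 2 < 1 := by
    have h7 : 0 < ℓ / N := by positivity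
    have h8 : 2 * ℓ / N = 2 * (ℓ / N) := by ring
    rw [h8]
    nlinarith
  have hr0 : 0 ≤ (1 - 1 / (4 * (x : ℝ))) ^ 2 := sq_nonneg _
  have hG : ((A ∩ Set.Icc 1 x).ncard : ℝ) / 2 ≤ gf A ((1 - 2 * ℓ / N) ^ 2) := by
    refine le_trans ?_ (gf_mono A hr0 hr hr1)
    refine le_trans ?_ (gf_ge_count A h3)
    have h7 : (A ∩ Set.Icc 1 x).ncard ≤ (A ∩ Set.Iic x).ncard := by
      apply Set.ncard_le_ncard _ ((Set.finite_Iic x).subset Set.inter_subset_right)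
      exact Set.inter_subset_inter_right _ fun a ha => ha.2
    have h8 : ((A ∩ Set.Icc 1 x).ncard : ℝ) ≤ (A ∩ Set.Iic x).ncard := by exact_mod_cast h7
    linarith
  have hgx : 0 < g x := hg0 x
  have hgN : g x ≤ g N := hg hxN
  -- lower bound of `g N * gf`
  have h7 : √x / (2 * C) ≤ g N * gf A ((1 - 2 * ℓ / N) ^ 2) := by
    have e1 : √x / (2 * C) ≤ g x * (((A ∩ Set.Icc 1 x).ncard : ℝ) / 2) := by
      rw [div_le_iff₀ hgx] at h2
      rw [div_le_iff₀ (by positivity)]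
      calc √x ≤ C * ((A ∩ Set.Icc 1 x).ncard : ℝ) * g x := h2
        _ = _ := by ring
    refine e1.trans ?_
    exact mul_le_mul hgN hG (by positivity) (hg0 N).le
  have h8 : (x : ℝ) / (4 * C ^ 2) ≤ (g N * gf A ((1 - 2 * ℓ / N) ^ 2)) ^ 2 := by
    have e1 : (√x / (2 * C)) ^ 2 = (x : ℝ) / (4 * C ^ 2) := by
      rw [div_pow, Real.sq_sqrt hx0.le]
      ring
    rw [← e1]
    exact pow_le_pow_left₀ (by positivity) h7 2
  have hD : 1 - (1 - 2 * ℓ / N) ^ 2 = 4 * (ℓ / N) * (1 - ℓ / N) := by ring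
  have hD0 : 0 ≤ 1 - (1 - 2 * ℓ / N) ^ 2 := by linarith
  have h9 : (1 - ℓ / N) * (1 / 8 - ℓ / N) / C ^ 2 ≤
      (1 - (1 - 2 * ℓ / N) ^ 2) * ((x : ℝ) / (4 * C ^ 2)) := by
    rw [hD]
    have e1 : (1 - ℓ / N) * (1 / 8 - ℓ / N) / C ^ 2 =
        4 * (ℓ / N) * (1 - ℓ / N) * (((N : ℝ) / (8 * ℓ) - 1) / (4 * C ^ 2)) := by
      field_simp
    rw [e1]
    apply mul_le_mul_of_nonneg_left
    · exact div_le_div_of_nonneg_right hxge (by positivity)
    · have : 0 ≤ 1 - ℓ / N := by linarith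
      positivity
  have h10 := mul_le_mul_of_nonneg_left h8 hD0
  calc m' ≤ (1 - ℓ / N) * (1 / 8 - ℓ / N) / C ^ 2 := h1.le
    _ ≤ _ := h9
    _ ≤ _ := h10
    _ = _ := by ring

/-- **Growing windows for thin sets.** -/
theorem growing_thin (A : Set ℕ) (K : ℕ) (hK : ∀ n, rep A n ≤ K) (g : ℕ → ℝ)
    (hg1 : ∀ N, 1 ≤ g N) (m m' : ℝ) (hm : 0 ≤ m) (hmm : m < m')
    (hA : ∀ᶠ N : ℕ in atTop, m' ≤ g N ^ 2 * ((1 - (1 - 2 * Real.log N / N) ^ 2) *
      gf A ((1 - 2 * Real.log N / N) ^ 2) ^ 2)) :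
    ∀ᶠ N : ℕ in atTop, ∀ (W : Finset ℕ) (w : ℕ → ℝ), (∀ k, 0 ≤ w k) → (∀ k ∉ W, w k = 0) →
      0 < ∑ k ∈ W, w k →
      (∑ k ∈ W, w k) ^ 2 * Real.log N ^ 2 * g N ≤ √N * ∑ k ∈ W, w k ^ 2 →
      (∀ k ∈ W, k * (∑ k ∈ W, w k) ^ 2 * Real.log N ^ 2 * g N ^ 2 ≤ N * ∑ k ∈ W, w k ^ 2) →
      ∀ t : ℝ, ∃ n ≤ N, (∀ k ∈ W, k ≤ n) ∧
        m * ∑ k ∈ W, w k ^ 2 ≤ g N ^ 2 * (Sw A w n - t) ^ 2 := by
  obtain ⟨Q, hQ⟩ : ∃ Q : ℝ, Q = 2 * K + √m := ⟨_, rfl⟩
  have hQ0 : 0 ≤ Q := hQ ▸ by positivity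
  -- the limits
  have hlog : Tendsto (fun N : ℕ => Real.log N) atTop atTop :=
    Real.tendsto_log_atTop.comp tendsto_natCast_atTop_atTop
  have hinv : Tendsto (fun N : ℕ => (Real.log N)⁻¹) atTop (𝓝 0) := tendsto_inv_atTop_zero.comp hlog
  have hsq : Tendsto (fun N : ℕ => √((Real.log N)⁻¹)) atTop (𝓝 0) := by
    have := hinv.sqrt
    rwa [Real.sqrt_zero] at this
  have hL1 : Tendsto (fun N : ℕ => (1 - 4 * (Real.log N)⁻¹) * √m' -
      8 * Q * √((Real.log N)⁻¹)) atTop (𝓝 ((1 - 4 * 0) * √m' - 8 * Q * 0)) :=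
    (((hinv.const_mul 4).const_sub 1).mul_const _).sub (hsq.const_mul _)
  have hL2 : Tendsto (fun N : ℕ => √(m + 6 * Q ^ 2 * (Real.log N)⁻¹)) atTop
      (𝓝 (√(m + 6 * Q ^ 2 * 0))) := ((hinv.const_mul _).const_add _).sqrt
  have hlt : √(m + 6 * Q ^ 2 * 0) < (1 - 4 * 0) * √m' - 8 * Q * 0 := by
    have := Real.sqrt_lt_sqrt hm hmm
    simpa using this
  have hev := hL2.eventually_lt hL1 hlt
  -- the parameter
  obtain ⟨ρ, hρ⟩ : ∃ ρ : ℕ → ℝ, ρ = fun N : ℕ => 1 - 2 * Real.log N / N := ⟨_, rfl⟩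
  have hρlim : Tendsto (fun N : ℕ => 2 * Real.log N / N) atTop (𝓝 0) := by
    have h1 : Tendsto (fun x : ℝ => Real.log x / x) atTop (𝓝 0) := by
      have := Real.isLittleO_log_id_atTop.tendsto_div_nhds_zero
      simpa using this
    have h2 := (h1.comp tendsto_natCast_atTop_atTop).const_mul 2
    rw [mul_zero] at h2
    refine h2.congr fun N => ?_
    simp only [Function.comp]
    ring
  have hsmall := hρlim.eventually_lt_const (show (0 : ℝ) < 1 / 2 by norm_num)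
  have hbig := hlog.eventually_gt_atTop 4
  filter_upwards [hev, hsmall, hbig, hA, eventually_ge_atTop 3] with N hN1 hN2 hN3 hN4 hN5
  intro W w hw hW hpos hc1 hc2 t
  by_contra hcon
  push Not at hcon
  -- notation
  obtain ⟨x, hx⟩ : ∃ x : ℝ, x = (N : ℝ) := ⟨_, rfl⟩
  obtain ⟨ℓ, hℓ⟩ : ∃ ℓ : ℝ, ℓ = Real.log N := ⟨_, rfl⟩
  obtain ⟨s, hs⟩ : ∃ s : ℝ, s = ∑ k ∈ W, w k := ⟨_, rfl⟩
  obtain ⟨B, hB⟩ : ∃ B : ℝ, B = ∑ k ∈ W, w k ^ 2 := ⟨_, rfl⟩
  obtain ⟨r, hr⟩ : ∃ r : ℝ, r = ρ N := ⟨_, rfl⟩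
  obtain ⟨G, hG⟩ : ∃ G : ℝ, G = gf A (r ^ 2) := ⟨_, rfl⟩
  obtain ⟨γ, hγ⟩ : ∃ γ : ℝ, γ = g N := ⟨_, rfl⟩
  have hγ1 : 1 ≤ γ := hγ ▸ hg1 N
  have hγ0 : 0 < γ := by linarith
  have hr' : r = 1 - 2 * ℓ / x := by rw [hr, hρ, hℓ, hx]
  have hr'' : r = 1 - 2 * Real.log N / N := by rw [hr', hℓ, hx]
  rw [← hr'', ← hG, ← hγ] at hN4
  rw [← hγ] at hc1 hc2 hcon
  rw [← hℓ] at hN1 hN2 hN3 hc1 hc2
  rw [← hx] at hN2 hc1 hc2
  rw [← hs] at hpos hc1 hc2
  rw [← hB] at hc1 hc2 hcon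
  have hx3 : (3 : ℝ) ≤ x := by rw [hx]; exact_mod_cast hN5
  have hx0 : 0 < x := by linarith
  have hℓ0 : 0 < ℓ := by linarith
  have hr0 : 1 / 2 ≤ r := by rw [hr']; linarith
  have h2l : 0 < 2 * ℓ / x := by positivity
  have hr1 : r < 1 := by rw [hr']; linarith
  have hrn : 0 ≤ r := by linarith
  have hR0 : 0 ≤ r ^ 2 := by positivity
  have hR1 : r ^ 2 < 1 := by nlinarith
  have hG0 : 0 ≤ G := hG ▸ gf_nonneg A hR0
  have hBs : B ≤ s ^ 2 := by rw [hB, hs]; exact sq_le_sq_sum hw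
  have hs2 : 0 < s ^ 2 := by positivity
  have hBpos : 0 < B := by
    have h1 : 0 < s ^ 2 * ℓ ^ 2 * γ := by positivity
    have h2 : 0 < √x * B := lt_of_lt_of_le h1 hc1
    exact pos_of_mul_pos_right h2 (Real.sqrt_nonneg _)
  have hγz : γ ≤ √x := by
    have h1 : γ * s ^ 2 ≤ √x * s ^ 2 := by
      calc γ * s ^ 2 ≤ γ * s ^ 2 * ℓ ^ 2 := by
            apply le_mul_of_one_le_right (by positivity)
            nlinarith
        _ = s ^ 2 * ℓ ^ 2 * γ := by ring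
        _ ≤ √x * B := hc1
        _ ≤ √x * s ^ 2 := mul_le_mul_of_nonneg_left hBs (Real.sqrt_nonneg _)
    exact le_of_mul_le_mul_right h1 hs2
  -- the largest element of the window
  obtain ⟨M, hM⟩ : ∃ M : ℕ, M = W.sup id := ⟨_, rfl⟩
  have hWM : ∀ k ∈ W, k ≤ M := fun k hk => hM ▸ Finset.le_sup (f := id) hk
  have hne : W.Nonempty := by
    rw [Finset.nonempty_iff_ne_empty]
    rintro rfl
    rw [hs] at hpos
    simp at hpos
  have hMW : M ∈ W := by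
    obtain ⟨k, hk, hk2⟩ := Finset.exists_mem_eq_sup W hne id
    rw [hM, hk2]
    exact hk
  have hMb' := hc2 M hMW
  have hMb : (M : ℝ) * s ^ 2 * ℓ ^ 2 ≤ x * B := by
    refine le_trans ?_ hMb'
    exact le_mul_of_one_le_right (by positivity) (one_le_pow₀ hγ1)
  have hM1 : (M : ℝ) * ℓ ^ 2 ≤ x := by
    have h1 : (M : ℝ) * ℓ ^ 2 * s ^ 2 ≤ x * s ^ 2 := by
      calc (M : ℝ) * ℓ ^ 2 * s ^ 2 = M * s ^ 2 * ℓ ^ 2 := by ring
        _ ≤ x * B := hMb
        _ ≤ x * s ^ 2 := mul_le_mul_of_nonneg_left hBs hx0.le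
    exact le_of_mul_le_mul_right h1 hs2
  have hMN : M ≤ N := by
    have h1 : (M : ℝ) ≤ M * ℓ ^ 2 := by
      have : (1 : ℝ) ≤ ℓ ^ 2 := by nlinarith
      nlinarith [(Nat.cast_nonneg M : (0 : ℝ) ≤ M)]
    have h2 : (M : ℝ) ≤ N := by rw [← hx]; linarith
    exact_mod_cast h2
  -- the size of `t`
  have hSK : ∀ n, Sw A w n ≤ K * s := fun n => hs ▸ Sw_le A hw hW hK n
  have hS0 : ∀ n, 0 ≤ Sw A w n := Sw_nonneg A hw
  have hsm : √(m * B) ≤ √m * s := by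
    rw [Real.sqrt_mul hm]
    refine mul_le_mul_of_nonneg_left ?_ (Real.sqrt_nonneg _)
    have h1 := Real.sqrt_le_sqrt hBs
    rwa [Real.sqrt_sq hpos.le] at h1
  have hK0 : (0 : ℝ) ≤ K := Nat.cast_nonneg K
  have htb : |t| ≤ (K + √m) * s := by
    have h1 := hcon M hMN hWM
    have h2 : |Sw A w M - t| ≤ √(m * B) := by
      apply Real.le_sqrt_of_sq_le
      rw [sq_abs]
      refine le_trans ?_ h1.le
      exact le_mul_of_one_le_left (sq_nonneg _) (one_le_pow₀ hγ1)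
    have h3 : |t| ≤ |Sw A w M - t| + |Sw A w M| := by
      have := abs_sub_abs_le_abs_sub t (Sw A w M)
      rw [abs_sub_comm t] at this
      linarith
    rw [abs_of_nonneg (hS0 M)] at h3
    have := hSK M
    linarith
  have hH : ∀ n, |Sw A w n - t| ≤ Q * s := by
    intro n
    have h1 : |Sw A w n - t| ≤ |Sw A w n| + |t| := abs_sub _ _
    rw [abs_of_nonneg (hS0 n)] at h1
    have := hSK n
    rw [hQ]
    linarith
  have hup := energy_up A (w := w) (M := M) (N := N) (t := t) (H := Q * s) (m := m * B / γ ^ 2)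
    (by positivity) hH (fun n h1 h2 => by
      rw [le_div_iff₀ (by positivity), mul_comm]
      exact (hcon n h2 fun k hk => (hWM k hk).trans h1).le) hrn hr1
  have hmain := main_ineq A W w hw hW t hr0 hr1
  rw [← hG, ← hs] at hmain
  obtain ⟨Br, hBr⟩ : ∃ Br : ℝ, Br = ∑ k ∈ W, w k ^ 2 * r ^ (2 * k) := ⟨_, rfl⟩
  obtain ⟨T, hT⟩ : ∃ T : ℝ, T = ∑' n, (Sw A w n - t) ^ 2 * r ^ (2 * n) := ⟨_, rfl⟩
  rw [← hBr, ← hT] at hmain
  rw [← hT] at hup
  have hBl := B_ge (w := w) hWM hrn hr1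
  have hBu := B_le (W := W) (w := w) hrn hr1
  rw [← hB, ← hBr] at hBl hBu
  have hT0 : 0 ≤ T := hT ▸ tsum_nonneg fun n => by positivity
  have hBr0 : 0 ≤ Br := hBr ▸ Finset.sum_nonneg fun k _ => by positivity
  -- elementary estimates
  have e1 : 1 - r = 2 * ℓ / x := by rw [hr']; ring
  have e3 : B * (1 - 4 * ℓ⁻¹) ≤ Br := by
    refine le_trans (mul_le_mul_of_nonneg_left ?_ hBpos.le) hBl
    rw [e1]
    have h1 : 2 * (M : ℝ) * (2 * ℓ / x) = 4 * ℓ⁻¹ * (M * ℓ ^ 2 / x) := by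
      field_simp
      ring
    rw [h1]
    have h2 : (M : ℝ) * ℓ ^ 2 / x ≤ 1 := (div_le_one hx0).2 hM1
    have h3 : 0 < 4 * ℓ⁻¹ := by positivity
    have h4 := mul_le_mul_of_nonneg_left h2 h3.le
    linarith
  have e5 : Real.log (2 / (1 - r)) ≤ ℓ := by
    have h1 : 2 / (1 - r) = x / ℓ := by
      rw [e1]
      field_simp
    rw [h1, hℓ, ← hx]
    apply Real.log_le_log
    · rw [hx, ← hℓ, ← hx]
      positivity
    · rw [hx, ← hℓ, ← hx]
      exact div_le_self hx0.le (by linarith)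
  have e6 : 0 ≤ Real.log (2 / (1 - r)) := by
    apply Real.log_nonneg
    rw [le_div_iff₀ (by linarith)]
    linarith
  have e7 : r ^ N * x ≤ 1 := by
    have h1 : r ≤ Real.exp (-(2 * ℓ / x)) := by
      have := Real.add_one_le_exp (-(2 * ℓ / x))
      rw [hr']
      linarith
    have h2 : r ^ N ≤ Real.exp (-(2 * ℓ)) := by
      calc r ^ N ≤ Real.exp (-(2 * ℓ / x)) ^ N := pow_le_pow_left₀ hrn h1 N
        _ = Real.exp (-(2 * ℓ)) := by
          rw [← Real.exp_nat_mul, ← hx]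
          congr 1
          field_simp
    have h3 : Real.exp (-(2 * ℓ)) = (x ^ 2)⁻¹ := by
      rw [Real.exp_neg, two_mul, Real.exp_add, hℓ, Real.exp_log (by rw [← hx]; exact hx0), ← hx, sq]
    rw [h3] at h2
    calc r ^ N * x ≤ (x ^ 2)⁻¹ * x := mul_le_mul_of_nonneg_right h2 hx0.le
      _ = x⁻¹ := by field_simp
      _ ≤ 1 := inv_le_one_of_one_le₀ (by linarith)
  have hy2 : √ℓ ^ 2 = ℓ := Real.sq_sqrt hℓ0.le
  have hz2 : √x ^ 2 = x := Real.sq_sqrt hx0.le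
  have hy4 : √ℓ ^ 4 = ℓ ^ 2 := by rw [show (4 : ℕ) = 2 * 2 by norm_num, pow_mul, hy2]
  have hy : 2 < √ℓ := by
    rw [Real.lt_sqrt (by norm_num)]
    norm_num
    exact hN3
  have hz : 1 ≤ √x := by
    rw [Real.one_le_sqrt]
    linarith
  have hsγ2 : √γ ^ 2 = γ := Real.sq_sqrt hγ0.le
  have hsγ0 : 0 < √γ := Real.sqrt_pos.2 hγ0
  have e7' : γ * r ^ N * √x ≤ 1 := by
    calc γ * r ^ N * √x ≤ √x * r ^ N * √x := by
          apply mul_le_mul_of_nonneg_right _ (Real.sqrt_nonneg _)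
          exact mul_le_mul_of_nonneg_right hγz (by positivity)
      _ = r ^ N * √x ^ 2 := by ring
      _ ≤ 1 := by rw [hz2]; exact e7
  have hfin := num (y := √ℓ) (z := √x) (r := r) (B := B) (Br := Br) (s := √γ * s) (G := γ * G)
    (T := γ ^ 2 * T) (Q := Q) (m := m) (m' := m') (t := √γ * |t|) (M := γ * M) (rN := γ * r ^ N)
    (Λ := Real.log (2 / (1 - r))) hy hz hr0 hr1 (by rw [hy2, hz2, e1]) hBpos (by positivity)
    (by
      rw [hy4, mul_pow, hsγ2]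
      refine le_trans (le_of_eq ?_) hc1
      ring) (by positivity)
    (by
      rw [hy4, hz2, mul_pow, hsγ2]
      refine le_trans (le_of_eq ?_) hMb'
      ring)
    (by rw [hy2]; exact e3) hBu (by positivity)
    (by
      refine hN4.trans (le_of_eq ?_)
      ring) hQ0 (by positivity)
    (by
      have h1 : |t| ≤ Q * s :=
        htb.trans (mul_le_mul_of_nonneg_right (by rw [hQ]; linarith) hpos.le)
      calc √γ * |t| ≤ √γ * (Q * s) := mul_le_mul_of_nonneg_left h1 hsγ0.le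
        _ = Q * (√γ * s) := by ring) e6
    (by rw [hy2]; exact e5) (by positivity) (by positivity) e7'
    (by
      have h1 := mul_le_mul_of_nonneg_left hmain hγ0.le
      have h2 : γ * √(Br * T) = √(Br * (γ ^ 2 * T)) := by
        rw [show Br * (γ ^ 2 * T) = γ ^ 2 * (Br * T) by ring,
          Real.sqrt_mul (show (0 : ℝ) ≤ γ ^ 2 by positivity) (Br * T), Real.sqrt_sq hγ0.le]
      rw [h2] at h1
      refine le_trans (le_of_eq ?_) h1
      have h3 : √γ * |t| * (√γ * s) = √γ ^ 2 * (|t| * s) := by ring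
      rw [h3, hsγ2]
      ring)
    (by
      have h1 := mul_le_mul_of_nonneg_left hup (by positivity : (0 : ℝ) ≤ γ ^ 2)
      refine h1.trans (le_of_eq ?_)
      have h2 : (Q * (√γ * s)) ^ 2 = γ * (Q * s) ^ 2 := by
        rw [show (Q * (√γ * s)) ^ 2 = √γ ^ 2 * (Q * s) ^ 2 by ring, hsγ2]
      rw [h2]
      field_simp)
  rw [hy2, ← Real.sqrt_inv] at hfin
  linarith

end Pool.Agent.X8.ET
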