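import Pool.Agent.X8.ET.Fou

/-!
# The window inequality

For nonnegative weights `w` with finite support, `S(n) = ∑ w_k r_A(n - k)` and every real `t`,
`B G - |t| (∑ w_k) 4 log (2 / (1 - ρ)) ≤ √(B ∑ (S(n) - t)² ρ^(2 n))`, where
`B = ∑ w_k² ρ^(2 k)` and `G = ∑_{a ∈ A} ρ^(2 a)`.
-/

set_option autoImplicit false

open Finset Filter Topology MeasureTheory

namespace Pool.Agent.X8.ET

open Pool.Agent.TH314.ET

/-- the window sum -/
noncomputable def Sw (A : Set ℕ) (w : ℕ → ℝ) (n : ℕ) : ℝ :=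
  ∑ p ∈ antidiagonal n, w p.1 * rep A p.2

open Classical in
/-- Abel weights of a set -/
noncomputable def ca (A : Set ℕ) (ρ : ℝ) (n : ℕ) : ℝ := if n ∈ A then ρ ^ n else 0

theorem ca_nonneg (A : Set ℕ) {ρ : ℝ} (h0 : 0 ≤ ρ) (n : ℕ) : 0 ≤ ca A ρ n := by
  unfold ca
  split_ifs
  · positivity
  · exact le_rfl

theorem ca_summable (A : Set ℕ) {ρ : ℝ} (h0 : 0 ≤ ρ) (h1 : ρ < 1) : Summable (ca A ρ) := by
  refine Summable.of_nonneg_of_le (ca_nonneg A h0) (fun n => ?_) (summable_geometric_of_lt_one h0 h1)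
  unfold ca
  split_ifs
  · exact le_rfl
  · positivity

theorem ca_sq (A : Set ℕ) (ρ : ℝ) : ∑' n, ca A ρ n ^ 2 = gf A (ρ ^ 2) := by
  unfold gf ca
  refine tsum_congr fun n => ?_
  split_ifs
  · rw [← pow_mul, ← pow_mul, mul_comm]
  · norm_num

/-- complexification -/
noncomputable def co (f : ℕ → ℝ) (n : ℕ) : ℂ := ((f n : ℝ) : ℂ)

theorem co_norm (f : ℕ → ℝ) (n : ℕ) : ‖co f n‖ = |f n| := by
  unfold co
  rw [Complex.norm_real, Real.norm_eq_abs]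

theorem cv_co (f g : ℕ → ℝ) (n : ℕ) :
    cv (co f) (co g) n = co (fun m => ∑ p ∈ antidiagonal m, f p.1 * g p.2) n := by
  unfold cv co
  push_cast
  rfl

theorem ca_conv (A : Set ℕ) (ρ : ℝ) (n : ℕ) :
    ∑ p ∈ antidiagonal n, ca A ρ p.1 * ca A ρ p.2 = rep A n * ρ ^ n := by
  classical
  rw [rep_eq, Finset.card_filter, Nat.cast_sum, Finset.sum_mul]
  refine Finset.sum_congr rfl fun p hp => ?_
  rw [HasAntidiagonal.mem_antidiagonal] at hp
  unfold ca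
  by_cases h1 : p.1 ∈ A <;> by_cases h2 : p.2 ∈ A
  · rw [if_pos h1, if_pos h2, if_pos ⟨h1, h2⟩, ← pow_add, hp]
    simp
  all_goals simp [h1, h2]

theorem w_summable {W : Finset ℕ} {w : ℕ → ℝ} (hW : ∀ k ∉ W, w k = 0) (ρ : ℝ) :
    Summable fun k => w k * ρ ^ k :=
  summable_of_ne_finset_zero (s := W) fun k hk => by rw [hW k hk, zero_mul]

theorem Sw_conv (A : Set ℕ) (w : ℕ → ℝ) (ρ : ℝ) (n : ℕ) :
    ∑ p ∈ antidiagonal n, (w p.1 * ρ ^ p.1) * (rep A p.2 * ρ ^ p.2) = Sw A w n * ρ ^ n := by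
  unfold Sw
  rw [Finset.sum_mul]
  refine Finset.sum_congr rfl fun p hp => ?_
  rw [HasAntidiagonal.mem_antidiagonal] at hp
  rw [← hp, pow_add]
  ring

theorem Sw_nonneg (A : Set ℕ) {w : ℕ → ℝ} (hw : ∀ k, 0 ≤ w k) (n : ℕ) : 0 ≤ Sw A w n :=
  Finset.sum_nonneg fun _ _ => mul_nonneg (hw _) (Nat.cast_nonneg _)

theorem Sw_summable (A : Set ℕ) {W : Finset ℕ} {w : ℕ → ℝ} (hw : ∀ k, 0 ≤ w k)
    (hW : ∀ k ∉ W, w k = 0) {ρ : ℝ} (h0 : 0 ≤ ρ) (h1 : ρ < 1) :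
    Summable fun n => Sw A w n * ρ ^ n := by
  have h2 : Summable fun k => ‖w k * ρ ^ k‖ := (w_summable hW ρ).norm
  have h3 : Summable fun n => ‖(rep A n : ℝ) * ρ ^ n‖ := (rw_summable_real A h0 h1).norm
  have h4 := summable_norm_sum_mul_antidiagonal_of_summable_norm h2 h3
  refine h4.congr fun n => ?_
  rw [Sw_conv, Real.norm_eq_abs, abs_of_nonneg (mul_nonneg (Sw_nonneg A hw n) (by positivity))]

/-- **The window inequality.** -/
theorem main_ineq (A : Set ℕ) (W : Finset ℕ) (w : ℕ → ℝ) (hw : ∀ k, 0 ≤ w k)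
    (hW : ∀ k ∉ W, w k = 0) (t : ℝ) {ρ : ℝ} (h0 : 1 / 2 ≤ ρ) (h1 : ρ < 1) :
    (∑ k ∈ W, w k ^ 2 * ρ ^ (2 * k)) * gf A (ρ ^ 2) -
        |t| * (∑ k ∈ W, w k) * (4 * Real.log (2 / (1 - ρ))) ≤
      √((∑ k ∈ W, w k ^ 2 * ρ ^ (2 * k)) * ∑' n, (Sw A w n - t) ^ 2 * ρ ^ (2 * n)) := by
  have hρ : 0 ≤ ρ := by linarith
  have hcw : Summable fun n => ‖co (fun k => w k * ρ ^ k) n‖ := by
    simp_rw [co_norm]
    exact (w_summable hW ρ).abs
  have hca : Summable fun n => ‖co (ca A ρ) n‖ := by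
    simp_rw [co_norm]
    exact (ca_summable A hρ h1).abs
  have hgeo := geo_summable hρ h1
  have haa := cv_summable hca hca
  have hwaa := cv_summable hcw haa
  have hwa := cv_summable hcw hca
  -- the coefficients
  obtain ⟨v, hv⟩ : ∃ v : ℕ → ℂ, v = fun n => cv (co fun k => w k * ρ ^ k)
    (cv (co (ca A ρ)) (co (ca A ρ))) n - (t : ℂ) * geo ρ n := ⟨_, rfl⟩
  have hvn : ∀ n, v n = (((Sw A w n - t) * ρ ^ n : ℝ) : ℂ) := by
    intro n
    rw [hv]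
    have e1 : (cv (co (ca A ρ)) (co (ca A ρ))) = co (fun n => rep A n * ρ ^ n) := by
      funext m
      rw [cv_co]
      unfold co
      exact congrArg _ (ca_conv A ρ m)
    show cv (co fun k => w k * ρ ^ k) (cv (co (ca A ρ)) (co (ca A ρ))) n - (t : ℂ) * geo ρ n = _
    rw [e1, cv_co]
    have e2 : co (fun m => ∑ p ∈ antidiagonal m, (w p.1 * ρ ^ p.1) * (rep A p.2 * ρ ^ p.2)) n =
        ((Sw A w n * ρ ^ n : ℝ) : ℂ) := congrArg _ (Sw_conv A w ρ n)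
    rw [e2]
    unfold geo
    push_cast
    ring
  have hvs : Summable fun n => ‖v n‖ := by
    rw [hv]
    refine Summable.of_nonneg_of_le (fun n => norm_nonneg _) (fun n => norm_sub_le _ _)
      (hwaa.add ?_)
    simp_rw [norm_mul]
    exact hgeo.mul_left _
  obtain ⟨F, hF⟩ : ∃ F : ℝ → ℂ, F = Fs (co fun k => w k * ρ ^ k) := ⟨_, rfl⟩
  obtain ⟨G, hG⟩ : ∃ G : ℝ → ℂ, G = Fs (co (ca A ρ)) := ⟨_, rfl⟩
  obtain ⟨P, hP⟩ : ∃ P : ℝ → ℂ, P = Fs (geo ρ) := ⟨_, rfl⟩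
  obtain ⟨V, hV⟩ : ∃ V : ℝ → ℂ, V = Fs v := ⟨_, rfl⟩
  have hFc : Continuous F := hF ▸ Fs_cont hcw
  have hGc : Continuous G := hG ▸ Fs_cont hca
  have hPc : Continuous P := hP ▸ Fs_cont hgeo
  have hVc : Continuous V := hV ▸ Fs_cont hvs
  have hVeq : ∀ x, V x = F x * (G x * G x) - t * P x := by
    intro x
    rw [hV, hv, Fs_sub hwaa hgeo, ← Fs_mul hcw haa, ← Fs_mul hca hca, hF, hG, hP]
  have hs0 : 0 ≤ ∑ k ∈ W, w k := Finset.sum_nonneg fun k _ => hw k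
  have hFle : ∀ x, ‖F x‖ ≤ ∑ k ∈ W, w k := by
    intro x
    rw [hF]
    refine (Fs_norm_le hcw x).trans ?_
    simp_rw [co_norm]
    rw [tsum_eq_sum (s := W) fun k hk => by rw [hW k hk, zero_mul, abs_zero]]
    refine Finset.sum_le_sum fun k _ => ?_
    rw [abs_of_nonneg (mul_nonneg (hw k) (by positivity))]
    exact mul_le_of_le_one_right (hw k) (pow_le_one₀ hρ h1.le)
  -- Parseval
  have hB : ∫ x in (0:ℝ)..1, ‖F x‖ ^ 2 = ∑ k ∈ W, w k ^ 2 * ρ ^ (2 * k) := by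
    rw [hF, parseval hcw, tsum_eq_sum (s := W) fun k hk => by
      rw [co_norm, hW k hk, zero_mul, abs_zero]; norm_num]
    refine Finset.sum_congr rfl fun k _ => ?_
    rw [co_norm, sq_abs, mul_pow, ← pow_mul, mul_comm k 2]
  have hT : ∫ x in (0:ℝ)..1, ‖V x‖ ^ 2 = ∑' n, (Sw A w n - t) ^ 2 * ρ ^ (2 * n) := by
    rw [hV, parseval hvs]
    refine tsum_congr fun n => ?_
    rw [hvn, Complex.norm_real, Real.norm_eq_abs, sq_abs, mul_pow, ← pow_mul, mul_comm n 2]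
  have hE : (∑ k ∈ W, w k ^ 2 * ρ ^ (2 * k)) * gf A (ρ ^ 2) ≤ ∫ x in (0:ℝ)..1, ‖F x * G x‖ ^ 2 := by
    have e1 : ∀ x, F x * G x = Fs (cv (co fun k => w k * ρ ^ k) (co (ca A ρ))) x := by
      intro x
      rw [hF, hG, Fs_mul hcw hca]
    simp_rw [e1]
    rw [parseval hwa]
    have h2 := energy_ge (c := fun k => w k * ρ ^ k) (d := ca A ρ)
      (fun k => mul_nonneg (hw k) (by positivity)) (ca_nonneg A hρ) (w_summable hW ρ)
      (ca_summable A hρ h1)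
    rw [ca_sq, tsum_eq_sum (s := W) fun k hk => by rw [hW k hk, zero_mul]; norm_num] at h2
    refine le_trans (le_of_eq ?_) (h2.trans (le_of_eq ?_))
    · congr 1
      refine Finset.sum_congr rfl fun k _ => ?_
      rw [mul_pow, ← pow_mul, mul_comm k 2]
    · refine tsum_congr fun n => ?_
      rw [cv_co, co_norm, sq_abs]
  -- combination
  have hpt : ∀ x, ‖F x * G x‖ ^ 2 - |t| * (∑ k ∈ W, w k) * ‖P x‖ ≤ ‖F x‖ * ‖V x‖ := by
    intro x
    have h2 : ‖F x * (G x * G x)‖ - ‖(t : ℂ) * P x‖ ≤ ‖V x‖ := by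
      rw [hVeq]
      exact norm_sub_norm_le _ _
    have h3 := mul_le_mul_of_nonneg_left h2 (norm_nonneg (F x))
    have h4 : ‖F x‖ * (‖F x * (G x * G x)‖ - ‖(t : ℂ) * P x‖) =
        ‖F x * G x‖ ^ 2 - ‖F x‖ * (|t| * ‖P x‖) := by
      rw [norm_mul, norm_mul, norm_mul, norm_mul, Complex.norm_real, Real.norm_eq_abs]
      ring
    rw [h4] at h3
    have h5 : ‖F x‖ * (|t| * ‖P x‖) ≤ (∑ k ∈ W, w k) * (|t| * ‖P x‖) :=
      mul_le_mul_of_nonneg_right (hFle x) (by positivity)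
    linarith
  have hint : (∑ k ∈ W, w k ^ 2 * ρ ^ (2 * k)) * gf A (ρ ^ 2) -
        |t| * (∑ k ∈ W, w k) * (4 * Real.log (2 / (1 - ρ))) ≤
      ∫ x in (0:ℝ)..1, ‖F x‖ * ‖V x‖ := by
    have h2 : ∫ x in (0:ℝ)..1, (‖F x * G x‖ ^ 2 - |t| * (∑ k ∈ W, w k) * ‖P x‖) ≤
        ∫ x in (0:ℝ)..1, ‖F x‖ * ‖V x‖ := by
      refine intervalIntegral.integral_mono_on zero_le_one ?_ ?_ fun x _ => hpt x
      · apply Continuous.intervalIntegrable
        fun_prop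
      · apply Continuous.intervalIntegrable
        fun_prop
    rw [intervalIntegral.integral_sub, intervalIntegral.integral_const_mul] at h2
    · have h3 := kernel h0 h1
      rw [← hP] at h3
      have h4 := mul_le_mul_of_nonneg_left h3 (mul_nonneg (abs_nonneg t) hs0)
      linarith
    · apply Continuous.intervalIntegrable
      fun_prop
    · apply Continuous.intervalIntegrable
      fun_prop
  refine hint.trans (Real.le_sqrt_of_sq_le ?_)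
  have h5 := cs (f := fun x => ‖F x‖) (g := fun x => ‖V x‖) hFc.norm hVc.norm
  rw [hB, hT] at h5
  exact h5

end Pool.Agent.X8.ET
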